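import Pool.Agent.PB.Basic

/-!
# PROJECT PB: measurability of events about a measurable random edge set
`MES S`: `S : Ω → Set (Sym2 W)` is a measurable random edge set. `opn_MES`: `ω ↦ O_p` is one.
-/

set_option autoImplicit false
open MeasureTheory Filter Topology
open scoped ENNReal BigOperators

namespace Pool.Agent.PB

section general

variable {Ω W : Type*} [MeasurableSpace Ω]

/-- measurable random edge set -/
def MES (S : Ω → Set (Sym2 W)) : Prop := ∀ e, MeasurableSet {ω | e ∈ S ω}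

/-- measurable random vertex set -/
def MVS (C : Ω → Set W) : Prop := ∀ x, MeasurableSet {ω | x ∈ C ω}

theorem MES_iff_measurable {S : Ω → Set (Sym2 W)} : MES S ↔ Measurable S := by
  rw [measurable_set_iff]
  exact forall_congr' fun e => measurableSet_setOfPred

/-- the identity: gives `MeasurableSet {O : Set (Sym2 W) | Rch O x y}` etc. -/
theorem MES_id : MES (fun O : Set (Sym2 W) => O) := MES_iff_measurable.2 measurable_id

theorem MES.comp {Ω' : Type*} [MeasurableSpace Ω'] {S : Ω → Set (Sym2 W)} (hS : MES S)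
    {f : Ω' → Ω} (hf : Measurable f) : MES (fun ω => S (f ω)) := fun e => hf (hS e)

theorem MVS.comp {Ω' : Type*} [MeasurableSpace Ω'] {S : Ω → Set W} (hS : MVS S)
    {f : Ω' → Ω} (hf : Measurable f) : MVS (fun ω => S (f ω)) := fun e => hf (hS e)

theorem MES.mem {S : Ω → Set (Sym2 W)} (hS : MES S) (e : Sym2 W) :
    MeasurableSet {ω | e ∈ S ω} := hS e

theorem MES.const (S : Set (Sym2 W)) : MES (fun _ : Ω => S) := fun _ => MeasurableSet.const _

theorem MES.del1 {S : Ω → Set (Sym2 W)} (hS : MES S) (e : Sym2 W) :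
    MES (fun ω => del1 (S ω) e) := fun f => by
  have : {ω | f ∈ PB.del1 (S ω) e} = {ω | f ∈ S ω} ∩ {_ω | f ≠ e} := by
    ext ω; simp [mem_del1]
  rw [this]
  exact (hS f).inter (MeasurableSet.const _)

theorem MES.rem {S : Ω → Set (Sym2 W)} (hS : MES S) (A : Del W) :
    MES (fun ω => A.rem (S ω)) := fun f => by
  have : {ω | f ∈ A.rem (S ω)} = {ω | f ∈ S ω} ∩ {_ω | f ∉ A.F ∧ ∀ x ∈ f, x ∉ A.S} := by
    ext ω; exact Iff.rfl
  rw [this]
  exact (hS f).inter (MeasurableSet.const _)

theorem MES.inter {S T : Ω → Set (Sym2 W)} (hS : MES S) (hT : MES T) :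
    MES (fun ω => S ω ∩ T ω) := fun f => (hS f).inter (hT f)

theorem MES.union {S T : Ω → Set (Sym2 W)} (hS : MES S) (hT : MES T) :
    MES (fun ω => S ω ∪ T ω) := fun f => (hS f).union (hT f)

theorem MES.sdiff {S T : Ω → Set (Sym2 W)} (hS : MES S) (hT : MES T) :
    MES (fun ω => S ω \ T ω) := fun f => (hS f).diff (hT f)

variable [Countable W]

theorem MES.rchL {S : Ω → Set (Sym2 W)} (hS : MES S) (n : ℕ) (x y : W) :
    MeasurableSet {ω | RchL (S ω) n x y} := by
  induction n generalizing y with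
  | zero => exact MeasurableSet.const _
  | succ n ih =>
    have : {ω | RchL (S ω) (n + 1) x y} =
        {ω | RchL (S ω) n x y} ∪ ⋃ z, ({ω | RchL (S ω) n x z} ∩ {ω | s(z, y) ∈ S ω}) := by
      ext ω; simp [RchL]
    rw [this]
    exact (ih y).union (MeasurableSet.iUnion fun z => (ih z).inter (hS _))

theorem MES.rch {S : Ω → Set (Sym2 W)} (hS : MES S) (x y : W) :
    MeasurableSet {ω | Rch (S ω) x y} := by
  have : {ω | Rch (S ω) x y} = ⋃ n, {ω | RchL (S ω) n x y} := by
    ext ω; simp [rch_iff_exists_RchL]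
  rw [this]
  exact MeasurableSet.iUnion fun n => hS.rchL n x y

theorem MES.cl {S : Ω → Set (Sym2 W)} (hS : MES S) (x : W) : MVS (fun ω => Cl (S ω) x) :=
  fun y => hS.rch x y

theorem MES.clA {S : Ω → Set (Sym2 W)} (hS : MES S) (A : Del W) (y : W) :
    MVS (fun ω => ClA A (S ω) y) := fun x => by
  have : {ω | x ∈ ClA A (S ω) y} = {_ω | y ∉ A.S} ∩ {ω | Rch (A.rem (S ω)) y x} := by
    ext ω; simp [mem_ClA]
  rw [this]
  exact (MeasurableSet.const _).inter ((hS.rem A).rch y x)

theorem MES.bl {S : Ω → Set (Sym2 W)} (hS : MES S) (r : ℕ) (x : W) :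
    MVS (fun ω => Bl (S ω) r x) := fun y => hS.rchL r x y

theorem MES.sph {S : Ω → Set (Sym2 W)} (hS : MES S) (r : ℕ) (x : W) :
    MVS (fun ω => Sph (S ω) r x) := fun y => by
  have : {ω | y ∈ Sph (S ω) r x} =
      {ω | RchL (S ω) r x y} ∩ ⋂ m : ℕ, ⋂ _ : m < r, {ω | RchL (S ω) m x y}ᶜ := by
    ext ω; simp [Sph]
  rw [this]
  exact (hS.rchL r x y).inter (MeasurableSet.iInter fun m => MeasurableSet.iInter fun _ =>
    (hS.rchL m x y).compl)

omit [MeasurableSpace Ω] [Countable W] in
theorem setOf_eq_iInter (C : Ω → Set W) (K : Set W) :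
    {ω | C ω = K} = ⋂ x, {ω | x ∈ C ω ↔ x ∈ K} := by
  ext ω; simp [Set.ext_iff]

theorem MVS.eq_set {C : Ω → Set W} (hC : MVS C) (K : Set W) : MeasurableSet {ω | C ω = K} := by
  rw [setOf_eq_iInter]
  refine MeasurableSet.iInter fun x => ?_
  by_cases hx : x ∈ K
  · simpa [hx] using hC x
  · have h2 : {ω | x ∈ C ω ↔ x ∈ K} = {ω | x ∈ C ω}ᶜ := by
      ext ω
      exact ⟨fun h h' => hx (h.1 h'), fun h => ⟨fun h' => absurd h' h, fun h' => absurd h' hx⟩⟩
    rw [h2]
    exact (hC x).compl

theorem MVS.subset_set {C : Ω → Set W} (hC : MVS C) (K : Set W) :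
    MeasurableSet {ω | C ω ⊆ K} := by
  have : {ω | C ω ⊆ K} = ⋂ x : W, {ω | x ∈ C ω → x ∈ K} := by
    ext ω; simp [Set.subset_def]
  rw [this]
  refine MeasurableSet.iInter fun x => ?_
  by_cases hx : x ∈ K
  · simp [hx]
  · have h2 : {ω | x ∈ C ω → x ∈ K} = {ω | x ∈ C ω}ᶜ := by
      ext ω
      exact ⟨fun h h' => hx (h h'), fun h h' => absurd h' h⟩
    rw [h2]
    exact (hC x).compl

theorem MVS.superset {C : Ω → Set W} (hC : MVS C) (K : Set W) :
    MeasurableSet {ω | K ⊆ C ω} := by
  have : {ω | K ⊆ C ω} = ⋂ x : W, {ω | x ∈ K → x ∈ C ω} := by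
    ext ω; simp [Set.subset_def]
  rw [this]
  refine MeasurableSet.iInter fun x => ?_
  by_cases hx : x ∈ K
  · simpa [hx] using hC x
  · simp [hx]

theorem MVS.infinite {C : Ω → Set W} (hC : MVS C) : MeasurableSet {ω | (C ω).Infinite} := by
  have : {ω | (C ω).Infinite} = ⋂ K : Finset W, {ω | C ω ⊆ (K : Set W)}ᶜ := by
    ext ω
    simp only [Set.mem_ofPred_eq, Set.mem_iInter, Set.mem_compl_iff]
    constructor
    · intro h K hK
      exact h ((Finset.finite_toSet K).subset hK)
    · intro h hfin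
      exact h hfin.toFinset (by simp)
  rw [this]
  exact MeasurableSet.iInter fun K => (hC.subset_set _).compl

theorem MVS.finite {C : Ω → Set W} (hC : MVS C) : MeasurableSet {ω | (C ω).Finite} := by
  have := hC.infinite.compl
  have h2 : {ω | (C ω).Infinite}ᶜ = {ω | (C ω).Finite} := by
    ext ω; simp [Set.not_infinite]
  rwa [h2] at this

/-- the cardinality of a measurable random vertex set is measurable -/
theorem MVS.encard {C : Ω → Set W} (hC : MVS C) : Measurable (fun ω => (C ω).encard) := by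
  refine measurable_to_countable' ?_
  intro n
  have key : ∀ m : ℕ, MeasurableSet {ω | (C ω).encard = m} := by
    intro m
    have : {ω | (C ω).encard = m} = ⋃ K : Finset W, ⋃ _ : K.card = m, {ω | C ω = (K : Set W)} := by
      ext ω
      simp only [Set.mem_ofPred_eq, Set.mem_iUnion, exists_prop]
      constructor
      · intro h
        have hf : (C ω).Finite := Set.finite_of_encard_eq_coe h
        refine ⟨hf.toFinset, ?_, by simp⟩
        have := hf.encard_eq_coe_toFinset_card
        rw [h] at this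
        exact_mod_cast this.symm
      · rintro ⟨K, hK, h⟩
        rw [h, Set.encard_coe_eq_coe_finsetCard, hK]
    rw [this]
    exact MeasurableSet.iUnion fun K => MeasurableSet.iUnion fun _ => hC.eq_set _
  induction n using ENat.recTopCoe with
  | top =>
    have : (fun ω => (C ω).encard) ⁻¹' {⊤} = {ω | (C ω).Infinite} := by
      ext ω; simp [Set.encard_eq_top_iff]
    rw [this]; exact hC.infinite
  | coe m => exact key m

theorem MVS.inter_const_nonempty {C : Ω → Set W} (hC : MVS C) (T : Set W) :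
    MeasurableSet {ω | ∃ t ∈ T, t ∈ C ω} := by
  have : {ω | ∃ t ∈ T, t ∈ C ω} = ⋃ t : W, ⋃ _ : t ∈ T, {ω | t ∈ C ω} := by
    ext ω; simp
  rw [this]
  exact MeasurableSet.iUnion fun t => MeasurableSet.iUnion fun _ => hC t

theorem MVS.inter_nonempty {C D : Ω → Set W} (hC : MVS C) (hD : MVS D) :
    MeasurableSet {ω | ∃ t ∈ D ω, t ∈ C ω} := by
  have : {ω | ∃ t ∈ D ω, t ∈ C ω} = ⋃ t : W, ({ω | t ∈ D ω} ∩ {ω | t ∈ C ω}) := by
    ext ω; simp
  rw [this]
  exact MeasurableSet.iUnion fun t => (hD t).inter (hC t)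

/-- `x → T` with a measurable random target -/
theorem MES.rchT {S : Ω → Set (Sym2 W)} (hS : MES S) {D : Ω → Set W} (hD : MVS D) (x : W) :
    MeasurableSet {ω | RchT (S ω) x (D ω)} := (hS.cl x).inter_nonempty hD

theorem MES.rchA {S : Ω → Set (Sym2 W)} (hS : MES S) {D : Ω → Set W} (hD : MVS D)
    (A : Del W) (x : W) : MeasurableSet {ω | RchA A (S ω) x (D ω)} :=
  (hS.clA A x).inter_nonempty hD

omit [Countable W] in
theorem MVS.const (K : Set W) : MVS (fun _ : Ω => K) := fun _ => MeasurableSet.const _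

theorem MES.sep {S : Ω → Set (Sym2 W)} (hS : MES S) (e : Sym2 W) (y : W) (T : Set W) :
    MeasurableSet {ω | Sep (S ω) e y T} :=
  (hS e).inter ((hS.del1 e).rchT (MVS.const T) y).compl

theorem MES.dconn {S : Ω → Set (Sym2 W)} (hS : MES S) (y u : W) :
    MeasurableSet {ω | DConn (S ω) y u} := by
  have : {ω | DConn (S ω) y u} = {ω | Rch (S ω) y u} ∩ ⋂ e, {ω | Sep (S ω) e y {u}}ᶜ := by
    ext ω; simp [DConn]
  rw [this]
  exact (hS.rch y u).inter (MeasurableSet.iInter fun e => (hS.sep e y _).compl)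

theorem MES.eprime {S : Ω → Set (Sym2 W)} (hS : MES S) (y u : W) (A : Del W) :
    MeasurableSet {ω | EPrime (S ω) y u A} := by
  have : {ω | EPrime (S ω) y u A} = ({ω | Rch (S ω) y u} ∩ {ω | u ∈ ClA A (S ω) y}ᶜ) ∩
      ⋂ e, ({ω | Sep (S ω) e y {u}}ᶜ ∪ ⋂ u' : W, ⋂ _ : u' ∈ e,
        ({ω | Rch (PB.del1 (S ω) e) y u'}ᶜ ∪ {ω | u' ∈ ClA A (S ω) y})) := by
    ext ω
    simp only [EPrime, Set.mem_ofPred_eq, Set.mem_inter_iff, Set.mem_compl_iff, Set.mem_iInter,
      Set.mem_union]
    constructor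
    · rintro ⟨h1, h2, h3⟩
      refine ⟨⟨h1, h2⟩, fun e => ?_⟩
      by_cases hs : Sep (S ω) e y {u}
      · right
        intro u' hu'
        by_cases hr : Rch (PB.del1 (S ω) e) y u'
        · exact Or.inr (h3 e hs u' hu' hr)
        · exact Or.inl hr
      · exact Or.inl hs
    · rintro ⟨⟨h1, h2⟩, h3⟩
      refine ⟨h1, h2, fun e hs u' hu' hr => ?_⟩
      rcases h3 e with h | h
      · exact absurd hs h
      · exact (h u' hu').resolve_left (fun h' => h' hr)
  rw [this]
  refine ((hS.rch y u).inter (hS.clA A y u).compl).inter (MeasurableSet.iInter fun e => ?_)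
  refine (hS.sep e y _).compl.union (MeasurableSet.iInter fun u' => MeasurableSet.iInter fun _ => ?_)
  exact ((hS.del1 e).rch y u').compl.union (hS.clA A y u')

theorem MES.disjConn {S : Ω → Set (Sym2 W)} (hS : MES S) {k : ℕ} (q : Fin k → W × W) :
    MeasurableSet {ω | DisjConn (S ω) q} := by
  have : {ω | DisjConn (S ω) q} = ⋃ T : Fin k → Finset (Sym2 W),
      ({_ω | Pairwise (Function.onFun Disjoint T) ∧
        ∀ j, Rch (T j : Set (Sym2 W)) (q j).1 (q j).2} ∩
        ⋂ j, ⋂ e : Sym2 W, ⋂ _ : e ∈ T j, {ω | e ∈ S ω}) := by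
    ext ω
    simp only [Set.mem_ofPred_eq, Set.mem_iUnion, Set.mem_inter_iff, Set.mem_iInter]
    constructor
    · intro h
      obtain ⟨T, h1, h2, h3, h4⟩ := h.exists_finite
      refine ⟨fun j => (h2 j).toFinset, ⟨?_, ?_⟩, ?_⟩
      · intro i j hij
        have := h3 hij
        simp only [Function.onFun] at this ⊢
        exact Set.Finite.disjoint_toFinset.2 this
      · intro j; simpa using h4 j
      · intro j e he
        exact h1 j (by simpa using he)
    · rintro ⟨T, ⟨h1, h2⟩, h3⟩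
      refine ⟨fun j => (T j : Set (Sym2 W)), fun j e he => h3 j e he, ?_, h2⟩
      intro i j hij
      simpa [Function.onFun] using h1 hij
  rw [this]
  refine MeasurableSet.iUnion fun T => (MeasurableSet.const _).inter ?_
  exact MeasurableSet.iInter fun j => MeasurableSet.iInter fun e => MeasurableSet.iInter fun _ => hS e

/-- set form: `MeasurableSet {O | Rch O x y}` -/
theorem measurableSet_rch (x y : W) : MeasurableSet {O : Set (Sym2 W) | Rch O x y} :=
  MES_id.rch x y

theorem measurableSet_clA (A : Del W) (y x : W) :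
    MeasurableSet {O : Set (Sym2 W) | x ∈ ClA A O y} := MES_id.clA A y x

theorem measurableSet_disjConn {k : ℕ} (q : Fin k → W × W) :
    MeasurableSet {O : Set (Sym2 W) | DisjConn O q} := MES_id.disjConn q

theorem measurableSet_eprime (y u : W) (A : Del W) :
    MeasurableSet {O : Set (Sym2 W) | EPrime O y u A} := MES_id.eprime y u A

end general

/-! ### the percolation sets -/

variable {d : ℕ}

theorem opn_MES (p : ℝ) : MES (fun ω : Om d => opn p ω) := fun e => by
  have : {ω : Om d | e ∈ opn p ω} =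
      {_ω | e ∈ (lat d).edgeSet} ∩ {ω : Om d | ((ω (Sum.inl e) : unitInterval) : ℝ) ≤ p} := by
    ext ω; simp [opn]
  rw [this]
  refine (MeasurableSet.const _).inter ?_
  exact measurableSet_le (measurable_subtype_coe.comp (measurable_pi_apply _)) measurable_const

theorem measurable_opn (p : ℝ) : Measurable (fun ω : Om d => opn p ω) :=
  MES_iff_measurable.1 (opn_MES p)

theorem ghost_MVS (b : Bool) (h : ℝ) : MVS (fun ω : Om d => ghost b h ω) := fun v => by
  have h1 : Measurable (fun ω : Om d => ((ω (Sum.inr (v, b)) : unitInterval) : ℝ)) :=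
    measurable_subtype_coe.comp (measurable_pi_apply _)
  exact measurableSet_le h1 measurable_const

theorem opn_mono {p q : ℝ} (h : p ≤ q) (ω : Om d) : opn p ω ⊆ opn q ω :=
  fun _ he => ⟨he.1, he.2.trans h⟩

end Pool.Agent.PB
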