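import Pool.Agent.PB.Meas

/-!
# PROJECT PB: link with the frozen statement S19313
`theta_eq_frozen`: `theta d p` is the probability of S19313; `frozen_of`: S19313 follows from the
statement about `theta d` and `pc d`.
-/

set_option autoImplicit false
open MeasureTheory Filter Topology
open scoped ENNReal BigOperators

namespace Pool.Agent.PB

variable {d : ℕ}

theorem l1_single (i : Fin d) : l1 (Pi.single i 1 : V d) = 1 := by
  classical
  unfold l1
  rw [Finset.sum_eq_single i]
  · simp
  · intro j _ hj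
    simp [Pi.single_eq_of_ne hj]
  · simp

theorem l1_neg (x : V d) : l1 (-x) = l1 x := by
  unfold l1; simp

theorem l1_nonneg (x : V d) : 0 ≤ l1 x := Finset.sum_nonneg fun _ _ => abs_nonneg _

theorem l1_eq_one_iff (x : V d) :
    l1 x = 1 ↔ ∃ i : Fin d, x = Pi.single i 1 ∨ x = - Pi.single i 1 := by
  classical
  constructor
  · intro h
    have hne : ∃ i, x i ≠ 0 := by
      by_contra hcon
      push Not at hcon
      have : l1 x = 0 := by unfold l1; simp [hcon]
      omega
    obtain ⟨i, hi⟩ := hne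
    have h1 : 1 ≤ |x i| := Int.one_le_abs hi
    have h2 : l1 x = |x i| + ∑ j ∈ Finset.univ.erase i, |x j| := by
      unfold l1
      exact (Finset.add_sum_erase Finset.univ (fun j => |x j|) (Finset.mem_univ i)).symm
    have h3 : 0 ≤ ∑ j ∈ Finset.univ.erase i, |x j| := Finset.sum_nonneg fun _ _ => abs_nonneg _
    have h4 : ∑ j ∈ Finset.univ.erase i, |x j| = 0 := by omega
    have h5 : |x i| = 1 := by omega
    have h6 : ∀ j, j ≠ i → x j = 0 := by
      intro j hj
      have := (Finset.sum_eq_zero_iff_of_nonneg (fun _ _ => abs_nonneg _)).1 h4 j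
        (Finset.mem_erase.2 ⟨hj, Finset.mem_univ _⟩)
      exact abs_eq_zero.1 this
    refine ⟨i, ?_⟩
    rcases (abs_eq (by norm_num : (0:ℤ) ≤ 1)).1 h5 with h | h
    · left
      funext j
      by_cases hj : j = i
      · subst hj; simp [h]
      · rw [h6 j hj, Pi.single_eq_of_ne hj]
    · right
      funext j
      by_cases hj : j = i
      · subst hj; simp [h]
      · rw [h6 j hj, Pi.neg_apply, Pi.single_eq_of_ne hj, neg_zero]
  · rintro ⟨i, rfl | rfl⟩
    · exact l1_single i
    · rw [l1_neg, l1_single]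

theorem lat_adj_iff (x y : V d) :
    (lat d).Adj x y ↔ ∃ i : Fin d, y = x + Pi.single i 1 ∨ x = y + Pi.single i 1 := by
  show l1 (y - x) = 1 ↔ _
  rw [l1_eq_one_iff]
  constructor
  · rintro ⟨i, h | h⟩
    · exact ⟨i, Or.inl (by rw [← h]; abel)⟩
    · exact ⟨i, Or.inr (by rw [← neg_eq_iff_eq_neg] at h; rw [← h]; abel)⟩
  · rintro ⟨i, h | h⟩
    · exact ⟨i, Or.inl (by rw [h]; abel)⟩
    · exact ⟨i, Or.inr (by rw [h]; abel)⟩

theorem mem_U1 (x : V d) : x ∈ U1 d ↔ l1 x = 1 := by
  classical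
  rw [l1_eq_one_iff]
  unfold U1
  simp only [Finset.mem_image, Finset.mem_univ, true_and, Prod.exists, Bool.exists_bool]
  constructor
  · rintro ⟨i, h | h⟩
    · exact ⟨i, Or.inr (by simpa using h.symm)⟩
    · exact ⟨i, Or.inl (by simpa using h.symm)⟩
  · rintro ⟨i, h | h⟩
    · exact ⟨i, Or.inr (by simp [h])⟩
    · exact ⟨i, Or.inl (by simp [h])⟩

theorem mem_opn {p : ℝ} {ω : Om d} {x y : V d} :
    s(x, y) ∈ opn p ω ↔ l1 (y - x) = 1 ∧ ((ω (Sum.inl s(x, y)) : unitInterval) : ℝ) ≤ p := Iff.rfl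

/-- the index map of S19313 -/
def idx (a : (Fin d → ℤ) × Fin d) : Ix d := Sum.inl s(a.1, a.1 + Pi.single a.2 1)

theorem idx_injective : Function.Injective (idx (d := d)) := by
  classical
  rintro ⟨a, i⟩ ⟨b, j⟩ h
  simp only [idx, Sum.inl.injEq, Sym2.eq_iff] at h
  have hs : ∀ i j : Fin d, (Pi.single i 1 : V d) = Pi.single j 1 → i = j := by
    intro i j hij
    by_contra hne
    have := congrFun hij i
    rw [Pi.single_eq_same, Pi.single_eq_of_ne hne] at this
    exact one_ne_zero this
  rcases h with ⟨h1, h2⟩ | ⟨h1, h2⟩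
  · subst h1
    rw [hs i j (add_left_cancel h2)]
  · exfalso
    -- a = b + e_j and a + e_i = b, so e_i + e_j = 0
    have h3 : (Pi.single j 1 : V d) + Pi.single i 1 = 0 := by
      have : b + ((Pi.single j 1 : V d) + Pi.single i 1) = b + 0 := by
        rw [← add_assoc, ← h1, h2, add_zero]
      exact add_left_cancel this
    have h4 := congrFun h3 i
    rw [Pi.add_apply, Pi.single_eq_same, Pi.zero_apply] at h4
    have h5 : 0 ≤ (Pi.single j 1 : V d) i := by
      by_cases hij : i = j
      · subst hij; simp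
      · rw [Pi.single_eq_of_ne hij]
    omega

/-- the labels of S19313 -/
def pull (ω : Om d) : (Fin d → ℤ) × Fin d → unitInterval := fun a => ω (idx a)

theorem measurable_pull : Measurable (pull (d := d)) :=
  measurable_pi_lambda _ fun _ => measurable_pi_apply _

theorem map_pull : (Pr d).map pull =
    Measure.infinitePi (fun _ : (Fin d → ℤ) × Fin d => (volume : Measure unitInterval)) := by
  classical
  apply Measure.eq_infinitePi
  intro s t ht
  rw [Measure.map_apply measurable_pull (MeasurableSet.pi s.countable_toSet fun i _ => ht i)]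
  have : pull ⁻¹' (Set.pi (s : Set _) t) =
      Set.pi ((s.image idx : Finset (Ix d)) : Set (Ix d)) (Function.extend idx t fun _ => Set.univ) := by
    ext ω
    simp only [Set.mem_preimage, Set.mem_pi, Finset.coe_image, Set.mem_image, Finset.mem_coe,
      forall_exists_index, and_imp]
    constructor
    · rintro h _ a ha rfl
      rw [idx_injective.extend_apply]
      exact h a ha
    · intro h a ha
      have := h _ a ha rfl
      rwa [idx_injective.extend_apply] at this
  rw [this, Pr, Measure.infinitePi_pi]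
  · rw [Finset.prod_image (fun a _ b _ h => idx_injective h)]
    refine Finset.prod_congr rfl fun a _ => ?_
    rw [idx_injective.extend_apply]
  · intro i hi
    rw [Finset.mem_image] at hi
    obtain ⟨a, _, rfl⟩ := hi
    rw [idx_injective.extend_apply]
    exact ht a

/-- the graph of S19313 -/
def fgr (p : ℝ) (ω : (Fin d → ℤ) × Fin d → unitInterval) : SimpleGraph (Fin d → ℤ) :=
  SimpleGraph.fromRel (fun a b : Fin d → ℤ =>
    ∃ i : Fin d, b = a + (Pi.single i (1 : ℤ) : Fin d → ℤ) ∧ ((ω (a, i) : ℝ) ≤ p))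

theorem fgr_adj (p : ℝ) (ω : Om d) (a b : V d) :
    (fgr p (pull ω)).Adj a b ↔ s(a, b) ∈ opn p ω := by
  rw [fgr, SimpleGraph.fromRel_adj]
  have hne : ∀ (i : Fin d) (a : V d), a ≠ a + Pi.single i 1 := by
    intro i a h
    have := congrFun h i
    rw [Pi.add_apply, Pi.single_eq_same] at this
    omega
  constructor
  · rintro ⟨_, ⟨i, hi, h⟩ | ⟨i, hi, h⟩⟩
    · subst hi
      exact ⟨(lat_adj_iff _ _).2 ⟨i, Or.inl rfl⟩, h⟩
    · subst hi
      refine ⟨(lat_adj_iff _ _).2 ⟨i, Or.inr rfl⟩, ?_⟩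
      have h2 : ((ω (Sum.inl s(b, b + Pi.single i 1)) : unitInterval) : ℝ) ≤ p := h
      rwa [Sym2.eq_swap] at h2
  · intro h
    obtain ⟨i, hi | hi⟩ := (lat_adj_iff _ _).1 (show (lat d).Adj a b from h.1)
    · subst hi
      exact ⟨hne i a, Or.inl ⟨i, rfl, h.2⟩⟩
    · subst hi
      refine ⟨(hne i b).symm, Or.inr ⟨i, rfl, ?_⟩⟩
      have h2 := h.2
      rw [Sym2.eq_swap] at h2
      exact h2

theorem fgr_reachable (p : ℝ) (ω : Om d) (a b : V d) :
    (fgr p (pull ω)).Reachable a b ↔ Rch (opn p ω) a b := by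
  rw [SimpleGraph.reachable_iff_reflTransGen]
  have : (fgr p (pull ω)).Adj = fun a b => s(a, b) ∈ opn p ω := by
    funext a b; exact propext (fgr_adj p ω a b)
  rw [this]; rfl

theorem measurableSet_fgr (p : ℝ) :
    MeasurableSet {ω : (Fin d → ℤ) × Fin d → unitInterval |
      Set.Infinite {x : Fin d → ℤ | (fgr p ω).Reachable 0 x}} := by
  classical
  -- random edge set of the frozen graph
  have hM : MES (fun ω : (Fin d → ℤ) × Fin d → unitInterval => (fgr p ω).edgeSet) := by
    intro e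
    induction e using Sym2.ind with
    | _ a b =>
      have : {ω : (Fin d → ℤ) × Fin d → unitInterval | s(a, b) ∈ (fgr p ω).edgeSet} =
          {_ω | a ≠ b} ∩ ((⋃ i : Fin d, ({_ω | b = a + Pi.single i 1} ∩ {ω | (ω (a, i) : ℝ) ≤ p})) ∪
            (⋃ i : Fin d, ({_ω | a = b + Pi.single i 1} ∩ {ω | (ω (b, i) : ℝ) ≤ p}))) := by
        ext ω
        simp [fgr, SimpleGraph.fromRel_adj]
      rw [this]
      have hle : ∀ c : (Fin d → ℤ) × Fin d,
          MeasurableSet {ω : (Fin d → ℤ) × Fin d → unitInterval | (ω c : ℝ) ≤ p} := fun c =>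
        measurableSet_le (measurable_subtype_coe.comp (measurable_pi_apply _)) measurable_const
      refine (MeasurableSet.const _).inter (MeasurableSet.union ?_ ?_)
      · exact MeasurableSet.iUnion fun i => (MeasurableSet.const _).inter (hle _)
      · exact MeasurableSet.iUnion fun i => (MeasurableSet.const _).inter (hle _)
  have hC := (hM.cl (0 : V d)).infinite
  have : ∀ ω : (Fin d → ℤ) × Fin d → unitInterval,
      Cl (fgr p ω).edgeSet (0 : V d) = {x : Fin d → ℤ | (fgr p ω).Reachable 0 x} := by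
    intro ω
    ext x
    show Rch _ _ _ ↔ _
    rw [rch_iff_reachable, SimpleGraph.fromEdgeSet_edgeSet]
    rfl
  simpa only [this] using hC

theorem theta_eq_frozen (d : ℕ) (p : ℝ) :
    theta d p = (Measure.infinitePi
      (fun _ : (Fin d → ℤ) × Fin d => (volume : Measure unitInterval)))
      {ω : (Fin d → ℤ) × Fin d → unitInterval |
        Set.Infinite {x : Fin d → ℤ |
          (SimpleGraph.fromRel (fun a b : Fin d → ℤ =>
            ∃ i : Fin d, b = a + (Pi.single i (1 : ℤ) : Fin d → ℤ) ∧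
              ((ω (a, i) : ℝ) ≤ p))).Reachable 0 x}} := by
  rw [← map_pull]
  refine Eq.trans ?_ (Measure.map_apply measurable_pull (measurableSet_fgr p)).symm
  rw [theta]
  congr 1
  ext ω
  show (Cl (opn p ω) 0).Infinite ↔ Set.Infinite {x : V d | (fgr p (pull ω)).Reachable 0 x}
  have : Cl (opn p ω) 0 = {x : V d | (fgr p (pull ω)).Reachable 0 x} := by
    ext x; exact (fgr_reachable p ω 0 x).symm
  rw [this]

theorem theta_ne_top (d : ℕ) (p : ℝ) : theta d p ≠ ⊤ := measure_ne_top _ _

/-- the frozen statement S19313 from the theorem about `theta` and `pc` -/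
theorem frozen_of
    (h : ∃ d₀ : ℕ, ∀ d : ℕ, d₀ ≤ d → ∃ C : ℝ, 0 < C ∧
      Tendsto (fun ε : ℝ => (theta d (pc d + ε)).toReal / ε) (𝓝[>] 0) (𝓝 C)) :
    ∃ d₀ : ℕ, ∀ d : ℕ, d₀ ≤ d →
      ∀ θ : ℝ → ℝ,
        (∀ p : ℝ, θ p =
          ((Measure.infinitePi
              (fun _ : (Fin d → ℤ) × Fin d => (volume : Measure unitInterval)))
            {ω : (Fin d → ℤ) × Fin d → unitInterval |
              Set.Infinite {x : Fin d → ℤ |
                (SimpleGraph.fromRel (fun a b : Fin d → ℤ =>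
                  ∃ i : Fin d, b = a + (Pi.single i (1 : ℤ) : Fin d → ℤ) ∧
                    ((ω (a, i) : ℝ) ≤ p))).Reachable 0 x}}).toReal) →
        ∃ C : ℝ, 0 < C ∧
          Tendsto (fun ε : ℝ => θ (sSup {p : ℝ | θ p = 0} + ε) / ε)
            (𝓝[>] 0) (𝓝 C) := by
  obtain ⟨d₀, h⟩ := h
  refine ⟨d₀, fun d hd θ hθ => ?_⟩
  have h1 : ∀ p, θ p = (theta d p).toReal := fun p => by rw [hθ p, theta_eq_frozen]
  have h2 : {p : ℝ | θ p = 0} = {p : ℝ | theta d p = 0} := by
    ext p
    show θ p = 0 ↔ theta d p = 0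
    rw [h1 p, ENNReal.toReal_eq_zero_iff]
    simp [theta_ne_top]
  obtain ⟨C, hC, hT⟩ := h d hd
  refine ⟨C, hC, ?_⟩
  rw [h2]
  simp only [h1]
  exact hT

end Pool.Agent.PB
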