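import Pool.Agent.PB.Defs

/-!
# PB 1.1: the van den Berg - Kesten inequality

`ι` countable, labels `ω : ι → unitInterval`, product measure.
Main theorems: `bk2` (two events, `box A B`) and `bk` (`dOcc A`, `k` events).
API: `restr_*`, `IsUp.*`, `measurableSet_restr`, `measurableSet_dOcc`, `isUp_dOcc`,
`measurableSet_box`, `isUp_box`.
-/

set_option autoImplicit false

open MeasureTheory Set
open scoped ENNReal

namespace Pool.Agent.PB

section Basic

variable {ι : Type*}

/-- disjoint occurrence of two events -/
def box (A B : Set (ι → unitInterval)) : Set (ι → unitInterval) :=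
  {w | ∃ S T : Finset ι, Disjoint S T ∧ restr (S : Set ι) w ∈ A ∧ restr (T : Set ι) w ∈ B}

theorem restr_of_mem {S : Set ι} (w : ι → unitInterval) {i : ι} (h : i ∈ S) :
    restr S w i = w i := by
  unfold restr
  exact if_pos h

theorem restr_of_notMem {S : Set ι} (w : ι → unitInterval) {i : ι} (h : i ∉ S) :
    restr S w i = 1 := by
  unfold restr
  exact if_neg h

theorem restr_restr {S T : Set ι} (w : ι → unitInterval) (h : T ⊆ S) :
    restr T (restr S w) = restr T w := by
  funext i
  by_cases hi : i ∈ T
  · rw [restr_of_mem _ hi, restr_of_mem _ hi, restr_of_mem _ (h hi)]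
  · rw [restr_of_notMem _ hi, restr_of_notMem _ hi]

theorem restr_congr {S : Set ι} {w w' : ι → unitInterval} (h : ∀ i ∈ S, w i = w' i) :
    restr S w = restr S w' := by
  funext i
  by_cases hi : i ∈ S
  · rw [restr_of_mem _ hi, restr_of_mem _ hi, h i hi]
  · rw [restr_of_notMem _ hi, restr_of_notMem _ hi]

theorem le_restr (S : Set ι) (w : ι → unitInterval) (i : ι) : w i ≤ restr S w i := by
  by_cases hi : i ∈ S
  · rw [restr_of_mem _ hi]
  · rw [restr_of_notMem _ hi]
    exact unitInterval.le_one'

theorem restr_anti {S T : Set ι} (h : S ⊆ T) (w : ι → unitInterval) (i : ι) :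
    restr T w i ≤ restr S w i := by
  by_cases hi : i ∈ S
  · rw [restr_of_mem _ hi, restr_of_mem _ (h hi)]
  · rw [restr_of_notMem _ hi]
    exact unitInterval.le_one'

theorem restr_mono {w w' : ι → unitInterval} (h : ∀ i, w i ≤ w' i) (S : Set ι) (i : ι) :
    restr S w i ≤ restr S w' i := by
  by_cases hi : i ∈ S
  · rw [restr_of_mem _ hi, restr_of_mem _ hi]
    exact h i
  · rw [restr_of_notMem _ hi, restr_of_notMem _ hi]

theorem restr_univ (w : ι → unitInterval) : restr (univ : Set ι) w = w := by
  funext i
  exact restr_of_mem w (mem_univ i)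

theorem IsUp.of_restr {A : Set (ι → unitInterval)} (hA : IsUp A) {w : ι → unitInterval}
    {S : Set ι} (h : restr S w ∈ A) : w ∈ A := hA _ _ (le_restr S w) h

theorem IsUp.restr_mono {A : Set (ι → unitInterval)} (hA : IsUp A) {w : ι → unitInterval}
    {S T : Set ι} (hST : S ⊆ T) (h : restr S w ∈ A) : restr T w ∈ A :=
  hA _ _ (restr_anti hST w) h

theorem IsUp.inter {A B : Set (ι → unitInterval)} (hA : IsUp A) (hB : IsUp B) :
    IsUp (A ∩ B) := fun w w' h hw => ⟨hA w w' h hw.1, hB w w' h hw.2⟩

theorem IsUp.union {A B : Set (ι → unitInterval)} (hA : IsUp A) (hB : IsUp B) :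
    IsUp (A ∪ B) := fun w w' h hw => hw.elim (fun h1 => Or.inl (hA w w' h h1))
  (fun h1 => Or.inr (hB w w' h h1))

theorem isUp_iUnion {κ : Sort*} {A : κ → Set (ι → unitInterval)} (hA : ∀ j, IsUp (A j)) :
    IsUp (⋃ j, A j) := by
  intro w w' h hw
  obtain ⟨j, hj⟩ := mem_iUnion.1 hw
  exact mem_iUnion.2 ⟨j, hA j w w' h hj⟩

theorem isUp_box {A B : Set (ι → unitInterval)} (hA : IsUp A) (hB : IsUp B) :
    IsUp (box A B) := by
  rintro w w' h ⟨S, T, hST, h1, h2⟩
  exact ⟨S, T, hST, hA _ _ (Pool.Agent.PB.restr_mono h _) h1,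
    hB _ _ (Pool.Agent.PB.restr_mono h _) h2⟩

theorem isUp_dOcc {k : ℕ} {A : Fin k → Set (ι → unitInterval)} (hA : ∀ j, IsUp (A j)) :
    IsUp (dOcc A) := by
  rintro w w' h ⟨S, hS, h1⟩
  exact ⟨S, hS, fun j => hA j _ _ (Pool.Agent.PB.restr_mono h _) (h1 j)⟩

theorem box_subset_inter {A B : Set (ι → unitInterval)} (hA : IsUp A) (hB : IsUp B) :
    box A B ⊆ A ∩ B := by
  rintro w ⟨S, T, -, h1, h2⟩
  exact ⟨hA.of_restr h1, hB.of_restr h2⟩

theorem dOcc_subset {k : ℕ} {A : Fin k → Set (ι → unitInterval)} (hA : ∀ j, IsUp (A j))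
    (j : Fin k) : dOcc A ⊆ A j := by
  rintro w ⟨S, -, h1⟩
  exact (hA j).of_restr (h1 j)

theorem box_mono {A B A' B' : Set (ι → unitInterval)} (hA : A ⊆ A') (hB : B ⊆ B') :
    box A B ⊆ box A' B' := by
  rintro w ⟨S, T, hST, h1, h2⟩
  exact ⟨S, T, hST, hA h1, hB h2⟩

theorem dOcc_mono {k : ℕ} {A A' : Fin k → Set (ι → unitInterval)} (hA : ∀ j, A j ⊆ A' j) :
    dOcc A ⊆ dOcc A' := by
  rintro w ⟨S, hS, h1⟩
  exact ⟨S, hS, fun j => hA j (h1 j)⟩

theorem box_comm (A B : Set (ι → unitInterval)) : box A B = box B A := by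
  ext w
  constructor
  · rintro ⟨S, T, hST, h1, h2⟩
    exact ⟨T, S, hST.symm, h2, h1⟩
  · rintro ⟨S, T, hST, h1, h2⟩
    exact ⟨T, S, hST.symm, h2, h1⟩

theorem measurable_restr (S : Set ι) :
    Measurable (fun w : ι → unitInterval => restr S w) := by
  refine measurable_pi_lambda _ (fun i => ?_)
  by_cases hi : i ∈ S
  · have : (fun w : ι → unitInterval => restr S w i) = fun w => w i := by
      funext w
      exact restr_of_mem w hi
    rw [this]
    exact measurable_pi_apply i
  · have : (fun w : ι → unitInterval => restr S w i) = fun _ => 1 := by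
      funext w
      exact restr_of_notMem w hi
    rw [this]
    exact measurable_const

theorem measurableSet_restr (S : Set ι) {A : Set (ι → unitInterval)} (hA : MeasurableSet A) :
    MeasurableSet {w : ι → unitInterval | restr S w ∈ A} := measurable_restr S hA

theorem measurableSet_box [Countable ι] {A B : Set (ι → unitInterval)} (hA : MeasurableSet A)
    (hB : MeasurableSet B) : MeasurableSet (box A B) := by
  have h : box A B = ⋃ (S : Finset ι), ⋃ (T : Finset ι), ⋃ (_ : Disjoint S T),
      ({w : ι → unitInterval | restr (S : Set ι) w ∈ A} ∩ {w | restr (T : Set ι) w ∈ B}) := by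
    ext w
    simp only [box, mem_ofPred_eq, mem_iUnion, mem_inter_iff, exists_prop]
  rw [h]
  exact MeasurableSet.iUnion fun S => MeasurableSet.iUnion fun T => MeasurableSet.iUnion fun _ =>
    (measurableSet_restr _ hA).inter (measurableSet_restr _ hB)

theorem measurableSet_dOcc [Countable ι] {k : ℕ} {A : Fin k → Set (ι → unitInterval)}
    (hA : ∀ j, MeasurableSet (A j)) : MeasurableSet (dOcc A) := by
  have h : dOcc A = ⋃ (S : Fin k → Finset ι), ⋃ (_ : Pairwise (Function.onFun Disjoint S)),
      ⋂ j, {w : ι → unitInterval | restr (S j : Set ι) w ∈ A j} := by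
    ext w
    simp only [dOcc, mem_ofPred_eq, mem_iUnion, mem_iInter, exists_prop]
  rw [h]
  exact MeasurableSet.iUnion fun S => MeasurableSet.iUnion fun _ => MeasurableSet.iInter fun j =>
    measurableSet_restr _ (hA j)

end Basic

/-! ### The finite case -/

section Finite

variable {ι : Type*} [DecidableEq ι]

/-- the configuration which is `x ∘ inr` on `J` and `x ∘ inl` off `J` -/
private def mix (J : Finset ι) (x : ι ⊕ ι → unitInterval) : ι → unitInterval :=
  fun i => if i ∈ J then x (Sum.inr i) else x (Sum.inl i)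

/-- the interpolating event -/
private def WJ (A B : Set (ι → unitInterval)) (J : Finset ι) : Set (ι ⊕ ι → unitInterval) :=
  {x | ∃ S T : Finset ι, S ∩ T ⊆ J ∧ restr (S : Set ι) (fun i => x (Sum.inl i)) ∈ A ∧
    restr (T : Set ι) (mix J x) ∈ B}

private theorem measurable_mix (J : Finset ι) : Measurable (mix J) := by
  refine measurable_pi_lambda _ (fun i => ?_)
  by_cases hi : i ∈ J
  · have : (fun x : ι ⊕ ι → unitInterval => mix J x i) = fun x => x (Sum.inr i) := by
      funext x
      exact if_pos hi
    rw [this]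
    exact measurable_pi_apply _
  · have : (fun x : ι ⊕ ι → unitInterval => mix J x i) = fun x => x (Sum.inl i) := by
      funext x
      exact if_neg hi
    rw [this]
    exact measurable_pi_apply _

private theorem measurableSet_WJ [Fintype ι] {A B : Set (ι → unitInterval)}
    (hA : MeasurableSet A) (hB : MeasurableSet B) (J : Finset ι) : MeasurableSet (WJ A B J) := by
  have h : WJ A B J = ⋃ (S : Finset ι), ⋃ (T : Finset ι), ⋃ (_ : S ∩ T ⊆ J),
      ({x : ι ⊕ ι → unitInterval | restr (S : Set ι) (fun i => x (Sum.inl i)) ∈ A} ∩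
        {x | restr (T : Set ι) (mix J x) ∈ B}) := by
    ext w
    simp only [WJ, mem_ofPred_eq, mem_iUnion, mem_inter_iff, exists_prop]
  rw [h]
  refine MeasurableSet.iUnion fun S => MeasurableSet.iUnion fun T => MeasurableSet.iUnion fun _ => ?_
  have hl : Measurable (fun (x : ι ⊕ ι → unitInterval) (i : ι) => x (Sum.inl i)) :=
    measurable_pi_lambda _ fun i => measurable_pi_apply _
  exact (((measurable_restr (S : Set ι)).comp hl) hA).inter
    (((measurable_restr (T : Set ι)).comp (measurable_mix J)) hB)

/-- two-coordinate update -/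
private def upd (x : ι ⊕ ι → unitInterval) (j : ι) (a b : unitInterval) : ι ⊕ ι → unitInterval :=
  Function.update (Function.update x (Sum.inl j) a) (Sum.inr j) b

private theorem upd_inl_self (x : ι ⊕ ι → unitInterval) (j : ι) (a b : unitInterval) :
    upd x j a b (Sum.inl j) = a := by
  unfold upd
  rw [Function.update_of_ne (by simp), Function.update_self]

private theorem upd_inr_self (x : ι ⊕ ι → unitInterval) (j : ι) (a b : unitInterval) :
    upd x j a b (Sum.inr j) = b := by
  unfold upd
  rw [Function.update_self]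

private theorem upd_inl_ne (x : ι ⊕ ι → unitInterval) {i j : ι} (h : i ≠ j)
    (a b : unitInterval) : upd x j a b (Sum.inl i) = x (Sum.inl i) := by
  unfold upd
  rw [Function.update_of_ne (by simp), Function.update_of_ne (by simpa using h)]

private theorem upd_inr_ne (x : ι ⊕ ι → unitInterval) {i j : ι} (h : i ≠ j)
    (a b : unitInterval) : upd x j a b (Sum.inr i) = x (Sum.inr i) := by
  unfold upd
  rw [Function.update_of_ne (by simpa using h), Function.update_of_ne (by simp)]

private theorem upd_mono (x : ι ⊕ ι → unitInterval) (j : ι) {a b a' b' : unitInterval}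
    (ha : a' ≤ a) (hb : b' ≤ b) (i : ι ⊕ ι) : upd x j a' b' i ≤ upd x j a b i := by
  rcases i with i | i
  · by_cases h : i = j
    · subst h
      rw [upd_inl_self, upd_inl_self]
      exact ha
    · rw [upd_inl_ne x h, upd_inl_ne x h]
  · by_cases h : i = j
    · subst h
      rw [upd_inr_self, upd_inr_self]
      exact hb
    · rw [upd_inr_ne x h, upd_inr_ne x h]

private theorem WJ_down {A B : Set (ι → unitInterval)} (hA : IsUp A) (hB : IsUp B)
    (J : Finset ι) {x x' : ι ⊕ ι → unitInterval} (h : ∀ i, x' i ≤ x i) (hx : x ∈ WJ A B J) :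
    x' ∈ WJ A B J := by
  obtain ⟨S, T, hST, h1, h2⟩ := hx
  refine ⟨S, T, hST, hA _ _ (Pool.Agent.PB.restr_mono (fun i => h _) _) h1,
    hB _ _ (Pool.Agent.PB.restr_mono (fun i => ?_) _) h2⟩
  unfold mix
  by_cases hi : i ∈ J
  · rw [if_pos hi, if_pos hi]
    exact h _
  · rw [if_neg hi, if_neg hi]
    exact h _

/-- the event `W_J` at `w_j = a`: either `h(a,1)` or `h(1,a)` -/
private theorem WJ_upd {A B : Set (ι → unitInterval)} {J : Finset ι} {j : ι} (hj : j ∉ J)
    (x : ι ⊕ ι → unitInterval) (a b : unitInterval) (hx : upd x j a b ∈ WJ A B J) :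
    upd x j a 1 ∈ WJ A B (insert j J) ∨ upd x j 1 a ∈ WJ A B (insert j J) := by
  obtain ⟨S, T, hST, h1, h2⟩ := hx
  by_cases hjS : j ∈ S
  · -- then `j ∉ T`
    have hjT : j ∉ T := fun h => hj (hST (Finset.mem_inter.2 ⟨hjS, h⟩))
    left
    refine ⟨S, T, hST.trans (Finset.subset_insert _ _), ?_, ?_⟩
    · have : restr (S : Set ι) (fun i => upd x j a 1 (Sum.inl i))
          = restr (S : Set ι) (fun i => upd x j a b (Sum.inl i)) := by
        refine restr_congr fun i _ => ?_
        by_cases h : i = j
        · subst h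
          rw [upd_inl_self, upd_inl_self]
        · rw [upd_inl_ne x h, upd_inl_ne x h]
      rw [this]
      exact h1
    · have : restr (T : Set ι) (mix (insert j J) (upd x j a 1))
          = restr (T : Set ι) (mix J (upd x j a b)) := by
        refine restr_congr fun i hi => ?_
        have h : i ≠ j := fun h => hjT (h ▸ hi)
        unfold mix
        by_cases hiJ : i ∈ J
        · rw [if_pos hiJ, if_pos (Finset.mem_insert_of_mem hiJ), upd_inr_ne x h, upd_inr_ne x h]
        · rw [if_neg hiJ, if_neg (by simp [h, hiJ]), upd_inl_ne x h, upd_inl_ne x h]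
      rw [this]
      exact h2
  · right
    refine ⟨S, T, hST.trans (Finset.subset_insert _ _), ?_, ?_⟩
    · have : restr (S : Set ι) (fun i => upd x j 1 a (Sum.inl i))
          = restr (S : Set ι) (fun i => upd x j a b (Sum.inl i)) := by
        refine restr_congr fun i hi => ?_
        have h : i ≠ j := fun h => hjS (h ▸ hi)
        rw [upd_inl_ne x h, upd_inl_ne x h]
      rw [this]
      exact h1
    · have : restr (T : Set ι) (mix (insert j J) (upd x j 1 a))
          = restr (T : Set ι) (mix J (upd x j a b)) := by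
        refine restr_congr fun i hi => ?_
        unfold mix
        by_cases h : i = j
        · subst h
          rw [if_neg hj, if_pos (Finset.mem_insert_self _ _), upd_inr_self, upd_inl_self]
        · by_cases hiJ : i ∈ J
          · rw [if_pos hiJ, if_pos (Finset.mem_insert_of_mem hiJ), upd_inr_ne x h, upd_inr_ne x h]
          · rw [if_neg hiJ, if_neg (by simp [h, hiJ]), upd_inl_ne x h, upd_inl_ne x h]
      rw [this]
      exact h2

private theorem step [Fintype ι] {A B : Set (ι → unitInterval)} (mA : MeasurableSet A)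
    (mB : MeasurableSet B) (hA : IsUp A) (hB : IsUp B) {J : Finset ι} {j : ι} (hj : j ∉ J) :
    Measure.pi (fun _ : ι ⊕ ι => (volume : Measure unitInterval)) (WJ A B J)
      ≤ Measure.pi (fun _ : ι ⊕ ι => (volume : Measure unitInterval)) (WJ A B (insert j J)) := by
  have m1 := measurableSet_WJ mA mB J
  have m2 := measurableSet_WJ mA mB (insert j J)
  rw [← lintegral_indicator_one m1, ← lintegral_indicator_one m2]
  have n1 : Measurable ((WJ A B J).indicator (1 : (ι ⊕ ι → unitInterval) → ℝ≥0∞)) :=
    measurable_one.indicator m1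
  have n2 : Measurable ((WJ A B (insert j J)).indicator (1 : (ι ⊕ ι → unitInterval) → ℝ≥0∞)) :=
    measurable_one.indicator m2
  apply lintegral_le_of_lmarginal_le (insert (Sum.inl j) {Sum.inr j}) n1 n2
  intro x
  rw [lmarginal_insert _ n1 (by simp), lmarginal_insert _ n2 (by simp), lmarginal_singleton,
    lmarginal_singleton]
  change (∫⁻ a, ∫⁻ b, (WJ A B J).indicator 1 (upd x j a b) ∂volume ∂volume)
    ≤ ∫⁻ a, ∫⁻ b, (WJ A B (insert j J)).indicator 1 (upd x j a b) ∂volume ∂volume
  set W := WJ A B (insert j J) with hW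
  have hdown : ∀ {a b a' b' : unitInterval}, a' ≤ a → b' ≤ b → upd x j a b ∈ W →
      upd x j a' b' ∈ W := fun ha hb h => WJ_down hA hB _ (upd_mono x j ha hb) h
  have one_le : ∀ {y : ι ⊕ ι → unitInterval}, y ∈ W →
      (1 : ℝ≥0∞) ≤ W.indicator (1 : (ι ⊕ ι → unitInterval) → ℝ≥0∞) y := by
    intro y hy
    rw [indicator_of_mem hy]
    exact le_refl _
  let U : Set unitInterval := {a | upd x j a 1 ∈ W}
  let V : Set unitInterval := {a | upd x j 1 a ∈ W}
  have hU : IsLowerSet U := fun a a' h ha => hdown h le_rfl ha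
  have hV : IsLowerSet V := fun a a' h ha => hdown le_rfl h ha
  have hle : ∀ a b, (WJ A B J).indicator (1 : (ι ⊕ ι → unitInterval) → ℝ≥0∞) (upd x j a b)
      ≤ (U ∪ V).indicator (1 : unitInterval → ℝ≥0∞) a := by
    intro a b
    by_cases h : upd x j a b ∈ WJ A B J
    · have h1 : a ∈ U ∪ V := WJ_upd hj x a b h
      rw [indicator_of_mem h, indicator_of_mem h1]
      exact le_refl _
    · rw [indicator_of_notMem h]
      exact bot_le
  rcases hU.total hV with h | h
  · rw [union_eq_self_of_subset_left h] at hle
    calc ∫⁻ a, ∫⁻ b, (WJ A B J).indicator 1 (upd x j a b) ∂volume ∂volume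
        ≤ ∫⁻ a, ∫⁻ _b : unitInterval, V.indicator (1 : unitInterval → ℝ≥0∞) a := by
          exact lintegral_mono fun a => lintegral_mono fun b => hle a b
      _ = ∫⁻ _a : unitInterval, ∫⁻ b, V.indicator (1 : unitInterval → ℝ≥0∞) b := by
          simp only [lintegral_const, measure_univ, mul_one]
      _ ≤ ∫⁻ a, ∫⁻ b, W.indicator 1 (upd x j a b) ∂volume ∂volume := by
          refine lintegral_mono fun a => lintegral_mono fun b => ?_
          by_cases hb : b ∈ V
          · rw [indicator_of_mem hb]
            exact one_le (hdown unitInterval.le_one' le_rfl hb)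
          · rw [indicator_of_notMem hb]
            exact bot_le
  · rw [union_eq_self_of_subset_right h] at hle
    refine lintegral_mono fun a => lintegral_mono fun b => (hle a b).trans ?_
    by_cases ha : a ∈ U
    · rw [indicator_of_mem ha]
      exact one_le (hdown le_rfl unitInterval.le_one' ha)
    · rw [indicator_of_notMem ha]
      exact bot_le

private theorem bk_fin [Fintype ι] {A B : Set (ι → unitInterval)} (mA : MeasurableSet A)
    (mB : MeasurableSet B) (hA : IsUp A) (hB : IsUp B) :
    Measure.pi (fun _ : ι => (volume : Measure unitInterval)) (box A B)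
      ≤ Measure.pi (fun _ : ι => (volume : Measure unitInterval)) A *
        Measure.pi (fun _ : ι => (volume : Measure unitInterval)) B := by
  set μ := Measure.pi (fun _ : ι => (volume : Measure unitInterval)) with hμ
  set μ2 := Measure.pi (fun _ : ι ⊕ ι => (volume : Measure unitInterval)) with hμ2
  have key : ∀ J : Finset ι, μ2 (WJ A B ∅) ≤ μ2 (WJ A B J) := by
    intro J
    induction J using Finset.induction_on with
    | empty => exact le_rfl
    | insert j J hj ih => exact ih.trans (step mA mB hA hB hj)
  have hmp := measurePreserving_sumPiEquivProdPi (X := fun _ : ι ⊕ ι => unitInterval)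
    (fun _ => volume)
  have e1 : WJ A B ∅ = (MeasurableEquiv.sumPiEquivProdPi (fun _ : ι ⊕ ι => unitInterval)) ⁻¹'
      ((box A B) ×ˢ univ) := by
    ext x
    rw [mem_preimage, MeasurableEquiv.coe_sumPiEquivProdPi]
    constructor
    · rintro ⟨S, T, hST, h1, h2⟩
      refine ⟨⟨S, T, Finset.disjoint_iff_inter_eq_empty.2 (Finset.subset_empty.1 hST), h1, ?_⟩,
        mem_univ _⟩
      have : mix ∅ x = fun i => x (Sum.inl i) := by
        funext i
        exact if_neg (Finset.notMem_empty i)
      rw [this] at h2
      exact h2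
    · rintro ⟨⟨S, T, hST, h1, h2⟩, -⟩
      refine ⟨S, T, (Finset.disjoint_iff_inter_eq_empty.1 hST).le, h1, ?_⟩
      have : mix ∅ x = fun i => x (Sum.inl i) := by
        funext i
        exact if_neg (Finset.notMem_empty i)
      rw [this]
      exact h2
  have e2 : WJ A B Finset.univ ⊆
      (MeasurableEquiv.sumPiEquivProdPi (fun _ : ι ⊕ ι => unitInterval)) ⁻¹' (A ×ˢ B) := by
    intro x hx
    rw [mem_preimage, MeasurableEquiv.coe_sumPiEquivProdPi]
    obtain ⟨S, T, -, h1, h2⟩ := hx
    refine ⟨hA.of_restr h1, ?_⟩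
    have : mix Finset.univ x = fun i => x (Sum.inr i) := by
      funext i
      exact if_pos (Finset.mem_univ i)
    rw [this] at h2
    exact hB.of_restr h2
  have h := (key Finset.univ).trans (measure_mono e2)
  rw [e1, hμ2, hmp.measure_preimage_equiv, hmp.measure_preimage_equiv, Measure.prod_prod,
    Measure.prod_prod, measure_univ, mul_one] at h
  exact h

end Finite

/-! ### The countable case -/

section Countable

variable {ι : Type*}

/-- extension by `1` of labels on a finite set -/
private noncomputable def ext1 (F : Finset ι) (x : F → unitInterval) : ι → unitInterval := by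
  classical exact fun i => if h : i ∈ F then x ⟨i, h⟩ else 1

private theorem ext1_of_mem {F : Finset ι} (x : F → unitInterval) {i : ι} (h : i ∈ F) :
    ext1 F x i = x ⟨i, h⟩ := by
  unfold ext1
  exact dif_pos h

private theorem ext1_of_notMem {F : Finset ι} (x : F → unitInterval) {i : ι} (h : i ∉ F) :
    ext1 F x i = 1 := by
  unfold ext1
  exact dif_neg h

private theorem measurable_ext1 (F : Finset ι) : Measurable (ext1 F) := by
  refine measurable_pi_lambda _ (fun i => ?_)
  by_cases hi : i ∈ F
  · have : (fun x : F → unitInterval => ext1 F x i) = fun x => x ⟨i, hi⟩ := by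
      funext x
      exact ext1_of_mem x hi
    rw [this]
    exact measurable_pi_apply _
  · have : (fun x : F → unitInterval => ext1 F x i) = fun _ => 1 := by
      funext x
      exact ext1_of_notMem x hi
    rw [this]
    exact measurable_const

private theorem ext1_restrict (F : Finset ι) (w : ι → unitInterval) :
    ext1 F (F.restrict w) = restr (F : Set ι) w := by
  funext i
  by_cases hi : i ∈ F
  · rw [ext1_of_mem _ hi, restr_of_mem _ (by exact_mod_cast hi)]
    rfl
  · rw [ext1_of_notMem _ hi, restr_of_notMem _ (by exact_mod_cast hi)]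

private theorem isUp_ext1 {A : Set (ι → unitInterval)} (hA : IsUp A) (F : Finset ι) :
    IsUp ((ext1 F) ⁻¹' A) := by
  intro w w' h hw
  refine hA _ _ (fun i => ?_) hw
  by_cases hi : i ∈ F
  · rw [ext1_of_mem _ hi, ext1_of_mem _ hi]
    exact h _
  · rw [ext1_of_notMem _ hi, ext1_of_notMem _ hi]

/-- **BK inequality** for two events -/
theorem bk2 [Countable ι] {A B : Set (ι → unitInterval)} (mA : MeasurableSet A)
    (mB : MeasurableSet B) (hA : IsUp A) (hB : IsUp B) :
    Measure.infinitePi (fun _ : ι => (volume : Measure unitInterval)) (box A B)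
      ≤ Measure.infinitePi (fun _ : ι => (volume : Measure unitInterval)) A *
        Measure.infinitePi (fun _ : ι => (volume : Measure unitInterval)) B := by
  classical
  set P := Measure.infinitePi (fun _ : ι => (volume : Measure unitInterval)) with hP
  -- the event that the disjoint occurrence is witnessed inside the finite set `F`
  let D : Finset ι → Set (ι → unitInterval) := fun F =>
    {w | ∃ S T : Finset ι, S ⊆ F ∧ T ⊆ F ∧ Disjoint S T ∧ restr (S : Set ι) w ∈ A ∧
      restr (T : Set ι) w ∈ B}
  have hmono : Monotone D := by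
    rintro F F' h w ⟨S, T, h1, h2, h3⟩
    exact ⟨S, T, h1.trans h, h2.trans h, h3⟩
  have hD : box A B = ⋃ F, D F := by
    ext w
    rw [mem_iUnion]
    constructor
    · rintro ⟨S, T, h1, h2, h3⟩
      exact ⟨S ∪ T, S, T, Finset.subset_union_left, Finset.subset_union_right, h1, h2, h3⟩
    · rintro ⟨F, S, T, -, -, h⟩
      exact ⟨S, T, h⟩
  rw [hD, hmono.directed_le.measure_iUnion]
  refine iSup_le fun F => ?_
  -- transfer to the finite product
  have hmap : P.map F.restrict = Measure.pi fun _ : F => (volume : Measure unitInterval) :=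
    Measure.infinitePi_map_restrict (μ := fun _ : ι => (volume : Measure unitInterval))
  have mA' : MeasurableSet ((ext1 F) ⁻¹' A) := measurable_ext1 F mA
  have mB' : MeasurableSet ((ext1 F) ⁻¹' B) := measurable_ext1 F mB
  have hbox : D F ⊆ F.restrict ⁻¹' (box ((ext1 F) ⁻¹' A) ((ext1 F) ⁻¹' B)) := by
    rintro w ⟨S, T, hS, hT, h1, h2, h3⟩
    have aux : ∀ S : Finset ι, S ⊆ F →
        ext1 F (restr ((S.subtype (· ∈ F) : Finset F) : Set F) (F.restrict w))
          = restr (S : Set ι) w := by
      intro S hS
      funext i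
      by_cases hi : i ∈ F
      · rw [ext1_of_mem _ hi]
        by_cases hiS : i ∈ S
        · rw [restr_of_mem _ (by simpa using hiS), restr_of_mem _ (by exact_mod_cast hiS)]
          rfl
        · rw [restr_of_notMem _ (by simpa using hiS), restr_of_notMem _ (by exact_mod_cast hiS)]
      · rw [ext1_of_notMem _ hi, restr_of_notMem _ (fun h => hi (hS (by exact_mod_cast h)))]
    refine ⟨S.subtype (· ∈ F), T.subtype (· ∈ F), ?_, ?_, ?_⟩
    · rw [Finset.disjoint_left]
      intro i hi hi'
      exact (Finset.disjoint_left.1 h1) (by simpa using hi) (by simpa using hi')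
    · rw [mem_preimage, aux S hS]
      exact h2
    · rw [mem_preimage, aux T hT]
      exact h3
  have hAF : P.map F.restrict ((ext1 F) ⁻¹' A) ≤ P A := by
    rw [Measure.map_apply (Finset.measurable_restrict F) mA']
    refine measure_mono fun w hw => ?_
    rw [mem_preimage, mem_preimage, ext1_restrict] at hw
    exact hA.of_restr hw
  have hBF : P.map F.restrict ((ext1 F) ⁻¹' B) ≤ P B := by
    rw [Measure.map_apply (Finset.measurable_restrict F) mB']
    refine measure_mono fun w hw => ?_
    rw [mem_preimage, mem_preimage, ext1_restrict] at hw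
    exact hB.of_restr hw
  have mbox : MeasurableSet (box ((ext1 F) ⁻¹' A) ((ext1 F) ⁻¹' B)) := measurableSet_box mA' mB'
  calc P (D F) ≤ P (F.restrict ⁻¹' (box ((ext1 F) ⁻¹' A) ((ext1 F) ⁻¹' B))) := measure_mono hbox
    _ = P.map F.restrict (box ((ext1 F) ⁻¹' A) ((ext1 F) ⁻¹' B)) :=
        (Measure.map_apply (Finset.measurable_restrict F) mbox).symm
    _ ≤ P.map F.restrict ((ext1 F) ⁻¹' A) * P.map F.restrict ((ext1 F) ⁻¹' B) := by
        rw [hmap]
        exact bk_fin mA' mB' (isUp_ext1 hA F) (isUp_ext1 hB F)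
    _ ≤ P A * P B := mul_le_mul' hAF hBF

theorem dOcc_succ_subset {k : ℕ} (A : Fin (k + 1) → Set (ι → unitInterval)) :
    dOcc A ⊆ box (A 0) (dOcc (fun j : Fin k => A j.succ)) := by
  classical
  rintro w ⟨S, hS, h⟩
  refine ⟨S 0, Finset.univ.biUnion (fun j : Fin k => S j.succ), ?_, h 0,
    fun j => S j.succ, ?_, ?_⟩
  · rw [Finset.disjoint_biUnion_right]
    intro j _
    exact hS (Fin.succ_ne_zero j).symm
  · intro i j hij
    exact hS (fun h => hij (Fin.succ_injective k h))
  · intro j
    rw [restr_restr]
    · exact h j.succ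
    · intro i hi
      rw [Finset.mem_coe, Finset.mem_biUnion]
      exact ⟨j, Finset.mem_univ j, hi⟩

/-- **BK inequality** for `k` events -/
theorem bk [Countable ι] {k : ℕ} {A : Fin k → Set (ι → unitInterval)}
    (mA : ∀ j, MeasurableSet (A j)) (hA : ∀ j, IsUp (A j)) :
    Measure.infinitePi (fun _ : ι => (volume : Measure unitInterval)) (dOcc A)
      ≤ ∏ j, Measure.infinitePi (fun _ : ι => (volume : Measure unitInterval)) (A j) := by
  induction k with
  | zero =>
    rw [Fin.prod_univ_zero]
    exact prob_le_one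
  | succ k ih =>
    rw [Fin.prod_univ_succ]
    refine (measure_mono (dOcc_succ_subset A)).trans ?_
    refine (bk2 (mA 0) (measurableSet_dOcc fun j => mA _) (hA 0) (isUp_dOcc fun j => hA _)).trans ?_
    exact mul_le_mul' le_rfl (ih (fun j => mA _) (fun j => hA _))

theorem dOcc_two (A B : Set (ι → unitInterval)) : dOcc ![A, B] = box A B := by
  ext w
  constructor
  · rintro ⟨S, hS, h⟩
    exact ⟨S 0, S 1, hS (by decide), h 0, h 1⟩
  · rintro ⟨S, T, hST, h1, h2⟩
    refine ⟨![S, T], ?_, ?_⟩
    · intro i j hij
      fin_cases i <;> fin_cases j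
      · exact absurd rfl hij
      · exact hST
      · exact hST.symm
      · exact absurd rfl hij
    · intro j
      fin_cases j
      · exact h1
      · exact h2

/-- BK for the percolation measure `Pr d` -/
theorem bk_Pr {d k : ℕ} {A : Fin k → Set (Om d)} (mA : ∀ j, MeasurableSet (A j))
    (hA : ∀ j, IsUp (A j)) : Pr d (dOcc A) ≤ ∏ j, Pr d (A j) := bk mA hA

theorem bk2_Pr {d : ℕ} {A B : Set (Om d)} (mA : MeasurableSet A) (mB : MeasurableSet B)
    (hA : IsUp A) (hB : IsUp B) : Pr d (box A B) ≤ Pr d A * Pr d B := bk2 mA mB hA hB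

end Countable

end Pool.Agent.PB
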