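import Pool.Agent.PB.Defs
import Pool.Agent.PB.P.Mix

/-!
# PROJECT PB: Russo's formula for finitely many edges

`opL L p ω` = the `p`-open edges of the finite set `L`. For a family `A T` (`T ⊆ L`) of events not
depending on the labels of `L`:
* `Pr_opL_formula`: `P(ω ∈ A (opL L p ω)) = Σ_{T ⊆ L} p^{|T|} (1-p)^{|L|-|T|} P(A T)`;
* `russo`: derivative in `p` is
  `Σ_{e ∈ L} [P(ω ∈ A (insert e (opL (L.erase e) p ω))) - P(ω ∈ A (opL (L.erase e) p ω))]`.
-/

set_option autoImplicit false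
open MeasureTheory Filter Topology
open scoped ENNReal BigOperators

namespace Pool.Agent.PB

variable {d : ℕ}

private theorem rus_indep {S T : Set (Ix d)} (hST : Disjoint S T) {A B : Set (Om d)}
    (hA : MeasurableSet A) (hB : MeasurableSet B) (hAS : DependsOn (fun ω => ω ∈ A) S)
    (hBT : DependsOn (fun ω => ω ∈ B) T) : Pr d (A ∩ B) = Pr d A * Pr d B :=
  Pr_inter_indep hST hA hB hAS hBT

private theorem rus_mono {ι α β : Type*} {f : (ι → α) → β} {S T : Set ι} (h : S ⊆ T)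
    (hf : DependsOn f S) : DependsOn f T := fun _ _ hxy => hf fun i hi => hxy i (h hi)

/-- the `p`-open edges of `L` -/
noncomputable def opL (L : Finset (Sym2 (V d))) (p : ℝ) (ω : Om d) : Finset (Sym2 (V d)) := by
  classical exact L.filter (fun e => ((ω (Sum.inl e) : unitInterval) : ℝ) ≤ p)

theorem mem_opL {L : Finset (Sym2 (V d))} {p : ℝ} {ω : Om d} {e : Sym2 (V d)} :
    e ∈ opL L p ω ↔ e ∈ L ∧ ((ω (Sum.inl e) : unitInterval) : ℝ) ≤ p := by
  classical
  unfold opL
  rw [Finset.mem_filter]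

theorem opL_subset (L : Finset (Sym2 (V d))) (p : ℝ) (ω : Om d) : opL L p ω ⊆ L := fun _ h =>
  (mem_opL.1 h).1

theorem coe_opL {L : Finset (Sym2 (V d))} (hL : ∀ e ∈ L, e ∈ (lat d).edgeSet) (p : ℝ) (ω : Om d) :
    (opL L p ω : Set (Sym2 (V d))) = opn p ω ∩ L := by
  ext e
  simp only [Finset.mem_coe, mem_opL, opn, Set.mem_inter_iff, Set.mem_ofPred_eq]
  exact ⟨fun h => ⟨⟨hL e h.1, h.2⟩, h.1⟩, fun h => ⟨h.2, h.1.2⟩⟩

theorem opL_eq_iff {L T : Finset (Sym2 (V d))} (hT : T ⊆ L) {p : ℝ} {ω : Om d} :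
    opL L p ω = T ↔ ∀ e ∈ L, (e ∈ T ↔ ((ω (Sum.inl e) : unitInterval) : ℝ) ≤ p) := by
  constructor
  · rintro rfl e he
    rw [mem_opL]; exact ⟨fun h => h.2, fun h => ⟨he, h⟩⟩
  · intro h
    ext e
    rw [mem_opL]
    exact ⟨fun h' => (h e h'.1).2 h'.2, fun h' => ⟨hT h', (h e (hT h')).1 h'⟩⟩

theorem Pr_opL_eq {L T : Finset (Sym2 (V d))} (hT : T ⊆ L) {p : ℝ} (h0 : 0 ≤ p) (h1 : p ≤ 1) :
    Pr d {ω | opL L p ω = T} = ENNReal.ofReal (∏ e ∈ L, if e ∈ T then p else 1 - p) := by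
  classical
  let t : Ix d → Set unitInterval := fun i => match i with
    | Sum.inl e => if e ∈ T then {x : unitInterval | (x : ℝ) ≤ p} else {x | p < (x : ℝ)}
    | Sum.inr _ => Set.univ
  have ht : ∀ i ∈ L.image (Sum.inl : Sym2 (V d) → Ix d), MeasurableSet (t i) := by
    intro i hi
    obtain ⟨e, -, rfl⟩ := Finset.mem_image.1 hi
    show MeasurableSet (if e ∈ T then {x : unitInterval | (x : ℝ) ≤ p} else {x | p < (x : ℝ)})
    split_ifs
    · exact measurableSet_le (by fun_prop) (by fun_prop)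
    · exact measurableSet_lt (by fun_prop) (by fun_prop)
  have hpi := Pr_labels_pi (L.image (Sum.inl : Sym2 (V d) → Ix d)) ht
  have hset : {ω : Om d | opL L p ω = T} =
      {ω | ∀ i ∈ L.image (Sum.inl : Sym2 (V d) → Ix d), ω i ∈ t i} := by
    ext ω
    simp only [Set.mem_ofPred_eq, opL_eq_iff hT]
    constructor
    · intro h i hi
      obtain ⟨e, he, rfl⟩ := Finset.mem_image.1 hi
      show ω (Sum.inl e) ∈ (if e ∈ T then {x : unitInterval | (x : ℝ) ≤ p} else {x | p < (x : ℝ)})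
      have h2 := h e he
      split_ifs with hc
      · exact h2.1 hc
      · exact not_le.1 (fun h3 => hc (h2.2 h3))
    · intro h e he
      have h2 : ω (Sum.inl e) ∈
          (if e ∈ T then {x : unitInterval | (x : ℝ) ≤ p} else {x | p < (x : ℝ)}) :=
        h (Sum.inl e) (Finset.mem_image_of_mem _ he)
      split_ifs at h2 with hc
      · exact ⟨fun _ => h2, fun _ => hc⟩
      · exact ⟨fun h3 => absurd h3 hc, fun h3 => absurd h3 (not_le.2 h2)⟩
  rw [hset, Pr_eq, hpi, Finset.prod_image (fun a _ b _ h => Sum.inl_injective h),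
    ENNReal.ofReal_prod_of_nonneg]
  · refine Finset.prod_congr rfl fun e _ => ?_
    show volume (if e ∈ T then {x : unitInterval | (x : ℝ) ≤ p} else {x | p < (x : ℝ)}) = _
    split_ifs
    · rw [vol_le, min_eq_left h1]
    · rw [vol_gt, min_eq_left h1, ENNReal.ofReal_sub _ h0, ENNReal.ofReal_one]
  · intro e _
    split_ifs
    · exact h0
    · linarith

theorem measurableSet_opL_eq (L T : Finset (Sym2 (V d))) (p : ℝ) :
    MeasurableSet {ω : Om d | opL L p ω = T} := by
  by_cases hT : T ⊆ L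
  · have : {ω : Om d | opL L p ω = T} = ⋂ e : Sym2 (V d), ⋂ _ : e ∈ L,
        {ω | e ∈ T ↔ ((ω (Sum.inl e) : unitInterval) : ℝ) ≤ p} := by
      ext ω; simp [opL_eq_iff hT]
    rw [this]
    refine MeasurableSet.iInter fun e => MeasurableSet.iInter fun _ => ?_
    have hm : MeasurableSet {ω : Om d | ((ω (Sum.inl e) : unitInterval) : ℝ) ≤ p} :=
      meas_le (Sum.inl e) p
    by_cases he : e ∈ T
    · simpa [he] using hm
    · have h2 : {ω : Om d | e ∈ T ↔ ((ω (Sum.inl e) : unitInterval) : ℝ) ≤ p} =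
          {ω : Om d | ((ω (Sum.inl e) : unitInterval) : ℝ) ≤ p}ᶜ := by
        ext ω; simp [he]
      rw [h2]; exact hm.compl
  · have : {ω : Om d | opL L p ω = T} = ∅ := by
      ext ω
      simp only [Set.mem_ofPred_eq, Set.mem_empty_iff_false, iff_false]
      intro h
      exact hT (h ▸ opL_subset L p ω)
    rw [this]; exact MeasurableSet.empty

theorem dep_opL_eq (L T : Finset (Sym2 (V d))) (p : ℝ) :
    DependsOn (fun ω : Om d => ω ∈ {ω : Om d | opL L p ω = T})
      (Sum.inl '' (L : Set (Sym2 (V d))) : Set (Ix d)) := by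
  intro ω ω' h
  have : opL L p ω = opL L p ω' := by
    ext e
    rw [mem_opL, mem_opL]
    constructor
    · rintro ⟨h1, h2⟩
      refine ⟨h1, ?_⟩
      rw [← h (Sum.inl e) ⟨e, h1, rfl⟩]; exact h2
    · rintro ⟨h1, h2⟩
      refine ⟨h1, ?_⟩
      rw [h (Sum.inl e) ⟨e, h1, rfl⟩]; exact h2
  simp only [Set.mem_ofPred_eq, this]

theorem opL_event_eq (L : Finset (Sym2 (V d))) (p : ℝ) (A : Finset (Sym2 (V d)) → Set (Om d)) :
    {ω : Om d | ω ∈ A (opL L p ω)} = ⋃ T ∈ L.powerset, ({ω : Om d | opL L p ω = T} ∩ A T) := by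
  ext ω
  simp only [Set.mem_ofPred_eq, Set.mem_iUnion, Set.mem_inter_iff, Finset.mem_powerset,
    exists_prop]
  constructor
  · intro h; exact ⟨_, opL_subset L p ω, rfl, h⟩
  · rintro ⟨T, -, h1, h2⟩; rw [h1]; exact h2

theorem measurableSet_opL_event (L : Finset (Sym2 (V d))) (p : ℝ)
    {A : Finset (Sym2 (V d)) → Set (Om d)} (mA : ∀ T ⊆ L, MeasurableSet (A T)) :
    MeasurableSet {ω : Om d | ω ∈ A (opL L p ω)} := by
  rw [opL_event_eq]
  exact Finset.measurableSet_biUnion _ fun T hT =>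
    (measurableSet_opL_eq L T p).inter (mA T (Finset.mem_powerset.1 hT))

/-- the finite product formula -/
theorem Pr_opL_formula (L : Finset (Sym2 (V d))) {A : Finset (Sym2 (V d)) → Set (Om d)}
    (mA : ∀ T ⊆ L, MeasurableSet (A T))
    (dA : ∀ T ⊆ L, DependsOn (fun ω => ω ∈ A T)
      ((Sum.inl '' (L : Set (Sym2 (V d))) : Set (Ix d))ᶜ)) {p : ℝ} (h0 : 0 ≤ p) (h1 : p ≤ 1) :
    (Pr d {ω : Om d | ω ∈ A (opL L p ω)}).toReal =
      ∑ T ∈ L.powerset, (∏ e ∈ L, if e ∈ T then p else 1 - p) * (Pr d (A T)).toReal := by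
  classical
  have hnn : ∀ T : Finset (Sym2 (V d)), 0 ≤ ∏ e ∈ L, (if e ∈ T then p else 1 - p) := by
    intro T
    refine Finset.prod_nonneg fun e _ => ?_
    split_ifs
    · exact h0
    · linarith
  rw [opL_event_eq, measure_biUnion_finset]
  · rw [ENNReal.toReal_sum (fun T _ => measure_ne_top _ _)]
    refine Finset.sum_congr rfl fun T hT => ?_
    have hT' := Finset.mem_powerset.1 hT
    rw [rus_indep (disjoint_compl_right) (measurableSet_opL_eq L T p) (mA T hT')
      (dep_opL_eq L T p) (dA T hT'), Pr_opL_eq hT' h0 h1, ENNReal.toReal_mul,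
      ENNReal.toReal_ofReal (hnn T)]
  · intro T _ T' _ hne
    refine Set.disjoint_left.2 ?_
    rintro ω ⟨h, -⟩ ⟨h', -⟩
    exact hne (h.symm.trans h')
  · intro T hT
    exact (measurableSet_opL_eq L T p).inter (mA T (Finset.mem_powerset.1 hT))

/-- derivative of the polynomial -/
theorem poly_deriv {E : Type*} [DecidableEq E] (L : Finset E) (a : Finset E → ℝ) (p : ℝ) :
    HasDerivAt (fun p : ℝ => ∑ T ∈ L.powerset, (∏ e ∈ L, if e ∈ T then p else 1 - p) * a T)
      (∑ e ∈ L, ∑ T ∈ (L.erase e).powerset,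
        (∏ f ∈ L.erase e, if f ∈ T then p else 1 - p) * (a (insert e T) - a T)) p := by
  have h1 : ∀ T : Finset E, HasDerivAt (fun p : ℝ => ∏ e ∈ L, if e ∈ T then p else 1 - p)
      (∑ e ∈ L, (∏ f ∈ L.erase e, if f ∈ T then p else 1 - p) * (if e ∈ T then 1 else -1)) p := by
    intro T
    have h2 : ∀ e ∈ L, HasDerivAt (fun p : ℝ => if e ∈ T then p else 1 - p)
        (if e ∈ T then 1 else -1) p := by
      intro e _
      split_ifs
      · exact hasDerivAt_id p
      · exact (hasDerivAt_id p).const_sub 1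
    have h3 := HasDerivAt.fun_finsetProd h2
    simpa [smul_eq_mul] using h3
  have h4 : HasDerivAt
      (fun p : ℝ => ∑ T ∈ L.powerset, (∏ e ∈ L, if e ∈ T then p else 1 - p) * a T)
      (∑ T ∈ L.powerset, (∑ e ∈ L, (∏ f ∈ L.erase e, if f ∈ T then p else 1 - p) *
        (if e ∈ T then 1 else -1)) * a T) p := by
    refine HasDerivAt.fun_sum fun T _ => ?_
    exact (h1 T).mul_const _
  convert h4 using 1
  simp_rw [Finset.sum_mul]
  rw [Finset.sum_comm]
  refine Finset.sum_congr rfl fun e he => ?_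
  have hL : L.powerset = (insert e (L.erase e)).powerset := by rw [Finset.insert_erase he]
  rw [hL, Finset.sum_powerset_insert (Finset.notMem_erase e L), ← Finset.sum_add_distrib]
  refine Finset.sum_congr rfl fun T hT => ?_
  have heT : e ∉ T := fun h => Finset.notMem_erase e L ((Finset.mem_powerset.1 hT) h)
  rw [if_neg heT, if_pos (Finset.mem_insert_self e T)]
  have h5 : (∏ f ∈ L.erase e, if f ∈ insert e T then p else 1 - p) =
      ∏ f ∈ L.erase e, if f ∈ T then p else 1 - p := by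
    refine Finset.prod_congr rfl fun f hf => ?_
    have hfe : f ≠ e := (Finset.mem_erase.1 hf).1
    simp only [Finset.mem_insert, hfe, false_or]
  rw [h5]
  ring

/-- Russo's formula -/
theorem russo (L : Finset (Sym2 (V d)))
    {A : Finset (Sym2 (V d)) → Set (Om d)}
    (mA : ∀ T ⊆ L, MeasurableSet (A T))
    (dA : ∀ T ⊆ L, DependsOn (fun ω => ω ∈ A T)
      ((Sum.inl '' (L : Set (Sym2 (V d))) : Set (Ix d))ᶜ)) {p : ℝ} (h0 : 0 < p) (h1 : p < 1) :
    HasDerivAt (fun p : ℝ => (Pr d {ω : Om d | ω ∈ A (opL L p ω)}).toReal)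
      (∑ e ∈ L, ((Pr d {ω : Om d | ω ∈ A (insert e (opL (L.erase e) p ω))}).toReal -
        (Pr d {ω : Om d | ω ∈ A (opL (L.erase e) p ω)}).toReal)) p := by
  have hp := poly_deriv L (fun T => (Pr d (A T)).toReal) p
  have hev : (fun p : ℝ => (Pr d {ω : Om d | ω ∈ A (opL L p ω)}).toReal) =ᶠ[𝓝 p]
      (fun p : ℝ => ∑ T ∈ L.powerset, (∏ e ∈ L, if e ∈ T then p else 1 - p) *
        (Pr d (A T)).toReal) := by
    filter_upwards [Ioo_mem_nhds h0 h1] with q hq
    rw [Pr_opL_formula L mA dA hq.1.le hq.2.le]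
  refine (HasDerivAt.congr_of_eventuallyEq hp hev).congr_deriv ?_
  symm
  refine Finset.sum_congr rfl fun e he => ?_
  have hsub : ∀ T ⊆ L.erase e, insert e T ⊆ L := fun T hT =>
    Finset.insert_subset he (hT.trans (Finset.erase_subset _ _))
  have hsub2 : ∀ T ⊆ L.erase e, T ⊆ L := fun T hT => hT.trans (Finset.erase_subset _ _)
  have hc : ((Sum.inl '' (L : Set (Sym2 (V d))) : Set (Ix d))ᶜ) ⊆
      ((Sum.inl '' ((L.erase e : Finset (Sym2 (V d))) : Set (Sym2 (V d))) : Set (Ix d))ᶜ) := by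
    refine Set.compl_subset_compl.2 (Set.image_mono ?_)
    exact_mod_cast Finset.erase_subset e L
  rw [Pr_opL_formula (L.erase e) (A := fun T => A (insert e T)) (fun T hT => mA _ (hsub T hT))
      (fun T hT => rus_mono hc (dA _ (hsub T hT))) h0.le h1.le,
    Pr_opL_formula (L.erase e) (A := A) (fun T hT => mA _ (hsub2 T hT))
      (fun T hT => rus_mono hc (dA _ (hsub2 T hT))) h0.le h1.le, ← Finset.sum_sub_distrib]
  refine Finset.sum_congr rfl fun T _ => ?_
  rw [← mul_sub]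

end Pool.Agent.PB
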