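import Pool.Agent.PB.Defs

/-!
# PROJECT PB: basic deterministic API for `Rch`, `Cl`, `ClA`, `RchL` (all proved here)
-/

set_option autoImplicit false
open scoped BigOperators

namespace Pool.Agent.PB

variable {W : Type*}

theorem Rch.refl (O : Set (Sym2 W)) (x : W) : Rch O x x := Relation.ReflTransGen.refl

theorem Rch.trans {O : Set (Sym2 W)} {x y z : W} (h : Rch O x y) (h' : Rch O y z) : Rch O x z :=
  Relation.ReflTransGen.trans h h'

theorem Rch.edge {O : Set (Sym2 W)} {x y : W} (h : s(x, y) ∈ O) : Rch O x y :=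
  Relation.ReflTransGen.single h

theorem Rch.tail {O : Set (Sym2 W)} {x y z : W} (h : Rch O x y) (h' : s(y, z) ∈ O) : Rch O x z :=
  Relation.ReflTransGen.tail h h'

theorem Rch.head {O : Set (Sym2 W)} {x y z : W} (h : s(x, y) ∈ O) (h' : Rch O y z) : Rch O x z :=
  Relation.ReflTransGen.head h h'

theorem Rch.symm {O : Set (Sym2 W)} {x y : W} (h : Rch O x y) : Rch O y x := by
  induction h with
  | refl => exact Rch.refl O x
  | tail _ hbc ih => exact Rch.head (by rwa [Sym2.eq_swap]) ih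

theorem Rch.comm {O : Set (Sym2 W)} {x y : W} : Rch O x y ↔ Rch O y x := ⟨Rch.symm, Rch.symm⟩

theorem Rch.mono {O O' : Set (Sym2 W)} (hO : O ⊆ O') {x y : W} (h : Rch O x y) : Rch O' x y :=
  Relation.ReflTransGen.mono (fun _ _ hab => hO hab) _ _ h

/-- induction from the starting point: a property closed under open steps -/
theorem Rch.induct {O : Set (Sym2 W)} {x : W} {P : W → Prop} (h0 : P x)
    (hs : ∀ y z, Rch O x y → s(y, z) ∈ O → P y → P z) {y : W} (h : Rch O x y) : P y := by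
  induction h with
  | refl => exact h0
  | tail hab hbc ih => exact hs _ _ hab hbc ih

/-- a set closed under open steps contains everything reachable -/
theorem Rch.mem_of_closed {O : Set (Sym2 W)} {x y : W} (K : Set W) (hx : x ∈ K)
    (hK : ∀ a ∈ K, ∀ b, s(a, b) ∈ O → b ∈ K) (h : Rch O x y) : y ∈ K :=
  Rch.induct (P := fun z => z ∈ K) hx (fun a b _ hab ha => hK a ha b hab) h

/-- either the connection survives, or it leaves `K`: crossing edge of a vertex set -/
theorem Rch.exists_cross {O : Set (Sym2 W)} {x y : W} (K : Set W) (hx : x ∈ K) (hy : y ∉ K)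
    (h : Rch O x y) : ∃ a b, a ∈ K ∧ b ∉ K ∧ s(a, b) ∈ O ∧ Rch O x a := by
  by_contra hcon
  push Not at hcon
  have : y ∈ K ∧ Rch O x y := by
    refine Rch.induct (P := fun z => z ∈ K ∧ Rch O x z) ⟨hx, Rch.refl _ _⟩ ?_ h
    intro a b hxa hab ha
    refine ⟨?_, hxa.tail hab⟩
    by_contra hb
    exact hcon a b ha.1 hb hab hxa
  exact hy this.1

/-- first crossing: the part of the connection before the crossing stays inside `K` -/
theorem Rch.exists_first_cross {O : Set (Sym2 W)} {x y : W} (K : Set W) (hx : x ∈ K) (hy : y ∉ K)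
    (h : Rch O x y) : ∃ a b, a ∈ K ∧ b ∉ K ∧ s(a, b) ∈ O ∧ Rch {e ∈ O | ∀ z ∈ e, z ∈ K} x a := by
  by_contra hcon
  push Not at hcon
  have : y ∈ K ∧ Rch {e ∈ O | ∀ z ∈ e, z ∈ K} x y := by
    refine Rch.induct (P := fun z => z ∈ K ∧ Rch {e ∈ O | ∀ z ∈ e, z ∈ K} x z)
      ⟨hx, Rch.refl _ _⟩ ?_ h
    intro a b _ hab ha
    have hb : b ∈ K := by
      by_contra hb
      exact hcon a b ha.1 hb hab ha.2
    refine ⟨hb, ha.2.tail ⟨hab, ?_⟩⟩
    intro z hz
    rcases Sym2.mem_iff.1 hz with rfl | rfl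
    · exact ha.1
    · exact hb
  exact hy this.1

/-- a connection uses finitely many edges -/
theorem Rch.exists_finite {O : Set (Sym2 W)} {x y : W} (h : Rch O x y) :
    ∃ S : Set (Sym2 W), S ⊆ O ∧ S.Finite ∧ Rch S x y := by
  refine Rch.induct (P := fun z => ∃ S : Set (Sym2 W), S ⊆ O ∧ S.Finite ∧ Rch S x z)
    ⟨∅, Set.empty_subset _, Set.finite_empty, Rch.refl _ _⟩ ?_ h
  rintro a b _ hab ⟨S, hS, hf, hr⟩
  refine ⟨insert s(a, b) S, Set.insert_subset hab hS, hf.insert _, ?_⟩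
  exact (hr.mono (Set.subset_insert _ _)).tail (Set.mem_insert _ _)

/-- a connection only uses edges inside the cluster -/
theorem Rch.inside {O : Set (Sym2 W)} {x y : W} (h : Rch O x y) :
    Rch {e ∈ O | ∀ z ∈ e, z ∈ Cl O x} x y := by
  refine Rch.induct (P := fun z => Rch {e ∈ O | ∀ z ∈ e, z ∈ Cl O x} x z) (Rch.refl _ _) ?_ h
  intro a b hxa hab ha
  refine ha.tail ⟨hab, ?_⟩
  intro z hz
  rcases Sym2.mem_iff.1 hz with rfl | rfl
  · exact hxa
  · exact hxa.tail hab

theorem mem_Cl {O : Set (Sym2 W)} {x y : W} : y ∈ Cl O x ↔ Rch O x y := Iff.rfl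

theorem self_mem_Cl (O : Set (Sym2 W)) (x : W) : x ∈ Cl O x := Rch.refl _ _

theorem Cl_mono {O O' : Set (Sym2 W)} (hO : O ⊆ O') (x : W) : Cl O x ⊆ Cl O' x :=
  fun _ h => Rch.mono hO h

theorem Cl_eq_of_mem {O : Set (Sym2 W)} {x y : W} (h : y ∈ Cl O x) : Cl O y = Cl O x :=
  Set.ext fun _ => ⟨fun hz => Rch.trans h hz, fun hz => Rch.trans (Rch.symm h) hz⟩

/-- clusters are closed under open edges -/
theorem Cl_closed {O : Set (Sym2 W)} {x a b : W} (ha : a ∈ Cl O x) (hab : s(a, b) ∈ O) :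
    b ∈ Cl O x := Rch.tail ha hab

/-! ### deletions -/

theorem Del.rem_subset (A : Del W) (O : Set (Sym2 W)) : A.rem O ⊆ O := fun _ h => h.1

theorem Del.rem_mono (A : Del W) {O O' : Set (Sym2 W)} (h : O ⊆ O') : A.rem O ⊆ A.rem O' :=
  fun _ he => ⟨h he.1, he.2⟩

theorem Del.ofSet_verts (S : Set W) : (Del.ofSet S).verts = S := by
  ext x; simp [Del.verts, Del.ofSet]

theorem Del.ofSet_rem (S : Set W) (O : Set (Sym2 W)) :
    (Del.ofSet S).rem O = {e | e ∈ O ∧ ∀ x ∈ e, x ∉ S} := by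
  ext e; simp [Del.rem, Del.ofSet]

theorem Del.ofSet_finite {S : Set W} (h : S.Finite) : (Del.ofSet S).Finite :=
  ⟨h, Set.finite_empty⟩

theorem Del.verts_finite {A : Del W} (h : A.Finite) : A.verts.Finite := by
  classical
  refine h.1.union ?_
  have : {x | ∃ e ∈ A.F, x ∈ e} = ⋃ e ∈ A.F, {x | x ∈ e} := by ext x; simp
  rw [this]
  refine h.2.biUnion fun e _ => ?_
  induction e using Sym2.ind with
  | _ a b =>
    refine (Set.toFinite {a, b}).subset ?_
    intro x hx
    simpa using hx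

theorem mem_ClA {A : Del W} {O : Set (Sym2 W)} {x y : W} :
    x ∈ ClA A O y ↔ y ∉ A.S ∧ Rch (A.rem O) y x := Iff.rfl

theorem ClA_subset_Cl (A : Del W) (O : Set (Sym2 W)) (y : W) : ClA A O y ⊆ Cl O y :=
  fun _ h => Rch.mono (A.rem_subset O) h.2

theorem ClA_mono (A : Del W) {O O' : Set (Sym2 W)} (h : O ⊆ O') (y : W) : ClA A O y ⊆ ClA A O' y :=
  fun _ hx => ⟨hx.1, Rch.mono (A.rem_mono h) hx.2⟩

theorem self_mem_ClA {A : Del W} {O : Set (Sym2 W)} {y : W} (h : y ∉ A.S) : y ∈ ClA A O y :=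
  ⟨h, Rch.refl _ _⟩

theorem ClA_eq_empty {A : Del W} {O : Set (Sym2 W)} {y : W} (h : y ∈ A.S) : ClA A O y = ∅ :=
  Set.eq_empty_of_forall_notMem fun _ hx => hx.1 h

/-- the cluster off `A` contains no deleted vertex -/
theorem ClA_disjoint {A : Del W} {O : Set (Sym2 W)} {x y : W} (h : x ∈ ClA A O y) : x ∉ A.S := by
  obtain ⟨hy, hr⟩ := h
  refine Rch.induct (P := fun z => z ∉ A.S) hy ?_ hr
  intro a b _ hab _
  exact hab.2.2 b (Sym2.mem_mk_right a b)

/-- the cluster off `A` is closed under remaining open edges -/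
theorem ClA_closed {A : Del W} {O : Set (Sym2 W)} {y a b : W} (ha : a ∈ ClA A O y)
    (hab : s(a, b) ∈ O) (hF : s(a, b) ∉ A.F) (hb : b ∉ A.S) : b ∈ ClA A O y := by
  refine ⟨ha.1, ha.2.tail ⟨hab, hF, ?_⟩⟩
  intro z hz
  rcases Sym2.mem_iff.1 hz with rfl | rfl
  · exact ClA_disjoint ha
  · exact hb

/-! ### removing one edge -/

theorem del1_subset (O : Set (Sym2 W)) (e : Sym2 W) : del1 O e ⊆ O := Set.sdiff_subset

theorem mem_del1 {O : Set (Sym2 W)} {e f : Sym2 W} : f ∈ del1 O e ↔ f ∈ O ∧ f ≠ e := Iff.rfl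

theorem del1_mono {O O' : Set (Sym2 W)} (h : O ⊆ O') (e : Sym2 W) : del1 O e ⊆ del1 O' e :=
  fun _ hf => ⟨h hf.1, hf.2⟩

theorem del1_of_notMem {O : Set (Sym2 W)} {e : Sym2 W} (h : e ∉ O) : del1 O e = O :=
  Set.sdiff_singleton_eq_self h

/-- a connection either avoids `e = {u,v}` or reaches `u` or `v` first without `e` -/
theorem Rch.del1_or {O : Set (Sym2 W)} {u v x y : W} (h : Rch O x y) :
    Rch (del1 O s(u, v)) x y ∨ Rch (del1 O s(u, v)) x u ∨ Rch (del1 O s(u, v)) x v := by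
  refine Rch.induct (P := fun z => Rch (del1 O s(u, v)) x z ∨ Rch (del1 O s(u, v)) x u ∨
    Rch (del1 O s(u, v)) x v) (Or.inl (Rch.refl _ _)) ?_ h
  rintro a b _ hab (ha | ha)
  · by_cases hE : s(a, b) = s(u, v)
    · rcases Sym2.eq_iff.1 hE with ⟨rfl, rfl⟩ | ⟨rfl, rfl⟩
      · exact Or.inr (Or.inl ha)
      · exact Or.inr (Or.inr ha)
    · exact Or.inl (ha.tail ⟨hab, hE⟩)
  · exact Or.inr ha

/-! ### paths of bounded length -/

theorem RchL.rch {O : Set (Sym2 W)} {n : ℕ} {x y : W} (h : RchL O n x y) : Rch O x y := by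
  induction n generalizing y with
  | zero => exact h ▸ Rch.refl _ _
  | succ n ih =>
    rcases h with h | ⟨z, hz, hzy⟩
    · exact ih h
    · exact (ih hz).tail hzy

theorem RchL.mono_len {O : Set (Sym2 W)} {m n : ℕ} (hmn : m ≤ n) {x y : W} (h : RchL O m x y) :
    RchL O n x y := by
  induction hmn with
  | refl => exact h
  | step _ ih => exact Or.inl ih

theorem RchL.mono {O O' : Set (Sym2 W)} (hO : O ⊆ O') {n : ℕ} {x y : W} (h : RchL O n x y) :
    RchL O' n x y := by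
  induction n generalizing y with
  | zero => exact h
  | succ n ih =>
    rcases h with h | ⟨z, hz, hzy⟩
    · exact Or.inl (ih h)
    · exact Or.inr ⟨z, ih hz, hO hzy⟩

theorem RchL.refl (O : Set (Sym2 W)) (n : ℕ) (x : W) : RchL O n x x := by
  induction n with
  | zero => rfl
  | succ n ih => exact Or.inl ih

theorem RchL.trans {O : Set (Sym2 W)} {m n : ℕ} {x y z : W} (h : RchL O m x y)
    (h' : RchL O n y z) : RchL O (m + n) x z := by
  induction n generalizing z with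
  | zero => cases h'; exact h
  | succ n ih =>
    rcases h' with h' | ⟨w, hw, hwz⟩
    · exact Or.inl (ih h')
    · exact Or.inr ⟨w, ih hw, hwz⟩

theorem RchL.symm {O : Set (Sym2 W)} {n : ℕ} {x y : W} (h : RchL O n x y) : RchL O n y x := by
  induction n generalizing y with
  | zero => exact Eq.symm h
  | succ n ih =>
    rcases h with h | ⟨z, hz, hzy⟩
    · exact Or.inl (ih h)
    · have h1 : RchL O 1 y z := Or.inr ⟨y, rfl, by rwa [Sym2.eq_swap]⟩
      have := h1.trans (ih hz)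
      rwa [Nat.add_comm] at this

theorem rch_iff_exists_RchL {O : Set (Sym2 W)} {x y : W} : Rch O x y ↔ ∃ n, RchL O n x y := by
  constructor
  · intro h
    refine Rch.induct (P := fun z => ∃ n, RchL O n x z) ⟨0, rfl⟩ ?_ h
    rintro a b _ hab ⟨n, hn⟩
    exact ⟨n + 1, Or.inr ⟨a, hn, hab⟩⟩
  · rintro ⟨n, hn⟩
    exact hn.rch

/-- the bridge to Mathlib -/
theorem rch_iff_reachable {O : Set (Sym2 W)} {x y : W} :
    Rch O x y ↔ (SimpleGraph.fromEdgeSet O).Reachable x y := by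
  rw [SimpleGraph.reachable_iff_reflTransGen]
  constructor
  · intro h
    refine Rch.induct (P := fun z => Relation.ReflTransGen (SimpleGraph.fromEdgeSet O).Adj x z)
      Relation.ReflTransGen.refl ?_ h
    intro a b _ hab ha
    by_cases hne : a = b
    · exact hne ▸ ha
    · exact ha.tail ⟨hab, hne⟩
  · intro h
    refine Relation.ReflTransGen.mono ?_ _ _ h
    intro a b hab
    exact ((SimpleGraph.fromEdgeSet_adj O).1 hab).1

/-! ### disjoint connections -/

theorem DisjConn.mono {k : ℕ} {O O' : Set (Sym2 W)} (hO : O ⊆ O') {q : Fin k → W × W}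
    (h : DisjConn O q) : DisjConn O' q := by
  obtain ⟨S, h1, h2, h3⟩ := h
  exact ⟨S, fun j => (h1 j).trans hO, h2, h3⟩

/-- the edge sets of a disjoint connection can be taken finite -/
theorem DisjConn.exists_finite {k : ℕ} {O : Set (Sym2 W)} {q : Fin k → W × W}
    (h : DisjConn O q) : ∃ S : Fin k → Set (Sym2 W), (∀ j, S j ⊆ O) ∧ (∀ j, (S j).Finite) ∧
      Pairwise (Function.onFun Disjoint S) ∧ ∀ j, Rch (S j) (q j).1 (q j).2 := by
  obtain ⟨S, h1, h2, h3⟩ := h
  choose T hT1 hT2 hT3 using fun j => (h3 j).exists_finite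
  refine ⟨T, fun j => (hT1 j).trans (h1 j), hT2, ?_, hT3⟩
  intro i j hij
  exact (h2 hij).mono (hT1 i) (hT1 j)

end Pool.Agent.PB
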