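import Pool.Agent.PB.Defs

/-!
# PROJECT PB: the interface between the sections
`Crit d` = output of Sections 3 and 4 (DCT + lace expansion), `Out5 d` = output of Section 5.
-/

set_option autoImplicit false
open MeasureTheory Filter Topology
open scoped ENNReal BigOperators

namespace Pool.Agent.PB

/-- edges with all endpoints in `S` -/
def ins {W : Type*} (S : Set W) : Set (Sym2 W) := {e | ∀ x ∈ e, x ∈ S}

/-- `N(O,x)`: number of vertices of the cluster (0 if infinite) -/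
noncomputable def Nc {W : Type*} (O : Set (Sym2 W)) (x : W) : ℕ := (Cl O x).ncard

variable {d : ℕ}

/-- `φ_p(S; y) = p Σ_{z ∈ S, w ∉ S, z ~ w} P_p(y ↔ z in S)` -/
noncomputable def phi (p : ℝ) (S : Finset (V d)) (y : V d) : ℝ≥0∞ := by
  classical exact
    ∑' z : V d, ∑' w : V d, (if z ∈ S ∧ w ∉ S then
      (J p (w - z) * Pr d {ω | Rch (opn p ω ∩ ins (S : Set (V d))) y z}) else 0)

/-- `M(p,h)` as a real number -/
noncomputable def Mr (d : ℕ) (p h : ℝ) : ℝ := (Mg d p h).toReal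

/-- `M'(p,h) = E_p[N e^{-hN}]` -/
noncomputable def Mp (d : ℕ) (p h : ℝ) : ℝ :=
  ∫ ω, (Nc (opn p ω) (0 : V d) : ℝ) * Real.exp (-(h * (Nc (opn p ω) (0 : V d) : ℝ))) ∂(Pr d)

/-- `θ` as a real number -/
noncomputable def thr (d : ℕ) (p : ℝ) : ℝ := (theta d p).toReal

/-- the event of `Q_{δ,h}(A,v)`: edge-disjoint connections off `A` from `v` to `G'_δ` and to `G_h` -/
def QEv (p δ h : ℝ) (A : Del (V d)) (v : V d) : Set (Om d) :=
  {ω | v ∉ A.S ∧ ∃ g ∈ ghost true δ ω, ∃ g' ∈ ghost false h ω,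
    DisjConn (A.rem (opn p ω)) ![(v, g), (v, g')]}

/-- `Q_{δ,h}(A,v)` -/
noncomputable def Qg (p δ h : ℝ) (A : Del (V d)) (v : V d) : ℝ≥0∞ := Pr d (QEv p δ h A v)

/-- `p Σ_{(u,v) ∈ ∂K} F v` -/
noncomputable def bdw (p : ℝ) (K : Finset (V d)) (F : V d → ℝ≥0∞) : ℝ≥0∞ := by
  classical exact ∑' u : V d, ∑' v : V d, (if u ∈ K ∧ v ∉ K then (J p (v - u) * F v) else 0)

/-- OUTPUT of Sections 3 and 4 -/
structure Crit (d : ℕ) : Prop where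
  hd : 2 ≤ d
  pc_pos : 0 < pc d
  pc_lt : pc d < 1
  theta_zero : ∀ p : ℝ, p < pc d → theta d p = 0
  chi_lt : ∀ p : ℝ, p < pc d → chi d p < ⊤
  chi_pc : chi d (pc d) = ⊤
  phi_ge : ∀ S : Finset (V d), (0 : V d) ∈ S → 1 ≤ phi (pc d) S 0
  theta_ge : ∃ c : ℝ, 0 < c ∧ ∀ p : ℝ, pc d < p → p ≤ 1 → c * (p - pc d) ≤ thr d p
  B8 : Bm d (pc d) 8 < ⊤
  small : Bm d (pc d) 4 * sm d (pc d) 3 ≤ ENNReal.ofReal (1 / 100)

/-- OUTPUT of Section 5 (everything at `p_c`) -/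
structure Out5 (d : ℕ) : Prop where
  theta_pc : theta d (pc d) = 0
  /-- `c √h ≤ M(h) ≤ C √h`, `c √h ≤ h M'(h) ≤ M(h)` -/
  bounds : ∃ C : ℝ, 1 ≤ C ∧ ∀ h : ℝ, 0 < h → h ≤ 1 →
    Mr d (pc d) h ≤ C * Real.sqrt h ∧ Real.sqrt h ≤ C * (h * Mp d (pc d) h) ∧
    h * Mp d (pc d) h ≤ Mr d (pc d) h
  /-- `c n^{-1/2} ≤ P(N ≥ n) ≤ C n^{-1/2}` -/
  tail : ∃ C : ℝ, 1 ≤ C ∧ ∀ n : ℕ, 1 ≤ n →
    (Pr d {ω : Om d | n ≤ Nc (opn (pc d) ω) (0 : V d)}).toReal ≤ C / Real.sqrt n ∧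
    1 / (C * Real.sqrt n) ≤ (Pr d {ω : Om d | n ≤ Nc (opn (pc d) ω) (0 : V d)}).toReal
  /-- 5.1, the two-ghost identity at `p_c` -/
  ghost2 : ∀ δ h : ℝ, 0 < δ → 0 < h →
    Pr d {ω : Om d | RchT (opn (pc d) ω) (0 : V d) (ghost true δ ω) ∧
      RchT (opn (pc d) ω) (0 : V d) (ghost false h ω)} =
      Qg (d := d) (pc d) δ h (Del.ofSet ∅) 0 +
        ENNReal.ofReal (1 / (1 - pc d)) *
          ∑' K : Finset (V d), Pr d {ω : Om d | Cl (opn (pc d) ω) (0 : V d) = (K : Set (V d))} *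
            ENNReal.ofReal (Real.exp (-((h + δ) * (K.card : ℝ)))) *
              bdw (pc d) K (fun v => Qg (pc d) δ h (Del.ofSet (K : Set (V d))) v)

end Pool.Agent.PB
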