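import Mathlib

/-!
# PROJECT PB (MP_5300c3_pr, frozen S19313): common definitions
(Sections 0, 1, 2.4, 4.1, 6.1, 10 of /team-store/pb_proof_1.md, 2, 3)

Conventions.
* Combinatorics is about an ARBITRARY set of edges `O : Set (Sym2 W)` (any vertex type `W`);
  an edge is an element of `Sym2 W`. `Rch O x y`: x and y are joined by finitely many edges of `O`.
* `V d = Fin d → ℤ`, `lat d` = nearest neighbour graph.
* Directed edges are pairs `(u, v)` of vertices; sums over directed edges are sums over `u v : V d`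
  with the weight `J p (v - u)` (= p if adjacent, 0 otherwise) or over `u` and `e ∈ U1 d`.
* All probabilities, expectations and sums of nonnegative terms are in `ℝ≥0∞`.
* Labels: `Om d = Ix d → unitInterval`, `Ix d = Sym2 (V d) ⊕ (V d × Bool)`: edge labels and two
  ghost labels per vertex. `Pr d` = product of uniform measures. Labels at elements of `Sym2 (V d)`
  that are not edges of `lat d` exist but are never used.
-/

set_option autoImplicit false
open MeasureTheory Filter Topology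
open scoped ENNReal BigOperators

namespace Pool.Agent.PB

/-! ### Graphs given by edge sets (any vertex type) -/

/-- `x` and `y` are connected in the edge set `O` (reflexive: `Rch O x x`). -/
def Rch {W : Type*} (O : Set (Sym2 W)) (x y : W) : Prop :=
  Relation.ReflTransGen (fun a b => s(a, b) ∈ O) x y

/-- `x` and `y` are joined by a path of at most `n` edges of `O` -/
def RchL {W : Type*} (O : Set (Sym2 W)) : ℕ → W → W → Prop
  | 0, x, y => x = y
  | n + 1, x, y => RchL O n x y ∨ ∃ z, RchL O n x z ∧ s(z, y) ∈ O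

/-- the cluster of `x` in the edge set `O` -/
def Cl {W : Type*} (O : Set (Sym2 W)) (x : W) : Set W := {y | Rch O x y}

/-- intrinsic ball `B_r(O, x)` -/
def Bl {W : Type*} (O : Set (Sym2 W)) (r : ℕ) (x : W) : Set W := {y | RchL O r x y}

/-- intrinsic sphere: `d_O(x, y) = r` -/
def Sph {W : Type*} (O : Set (Sym2 W)) (r : ℕ) (x : W) : Set W :=
  {y | RchL O r x y ∧ ∀ m < r, ¬ RchL O m x y}

/-- `x → T` in `O` -/
def RchT {W : Type*} (O : Set (Sym2 W)) (x : W) (T : Set W) : Prop := ∃ t ∈ T, Rch O x t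

/-- a deletion `A = (S, F)`: vertices `S` and edges `F` are deleted -/
structure Del (W : Type*) where
  /-- deleted vertices -/
  S : Set W
  /-- deleted edges -/
  F : Set (Sym2 W)

/-- deletion of a vertex set -/
def Del.ofSet {W : Type*} (S : Set W) : Del W := ⟨S, ∅⟩

/-- `O^A`: what remains of the edge set `O` -/
def Del.rem {W : Type*} (A : Del W) (O : Set (Sym2 W)) : Set (Sym2 W) :=
  {e | e ∈ O ∧ e ∉ A.F ∧ ∀ x ∈ e, x ∉ A.S}

/-- `V(A)`: deleted vertices and endpoints of deleted edges -/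
def Del.verts {W : Type*} (A : Del W) : Set W := A.S ∪ {x | ∃ e ∈ A.F, x ∈ e}

/-- a finite deletion -/
def Del.Finite {W : Type*} (A : Del W) : Prop := A.S.Finite ∧ A.F.Finite

/-- `C_A(O,y)`: the cluster of `y` off `A` (empty if `y ∈ S`) -/
def ClA {W : Type*} (A : Del W) (O : Set (Sym2 W)) (y : W) : Set W :=
  {x | y ∉ A.S ∧ Rch (A.rem O) y x}

/-- `y → T` off `A` -/
def RchA {W : Type*} (A : Del W) (O : Set (Sym2 W)) (y : W) (T : Set W) : Prop :=
  ∃ t ∈ T, t ∈ ClA A O y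

/-- `O \ e` -/
def del1 {W : Type*} (O : Set (Sym2 W)) (e : Sym2 W) : Set (Sym2 W) := O \ {e}

/-- edges touching `K` -/
def touch {W : Type*} (K : Set W) : Set (Sym2 W) := {e | ∃ x ∈ e, x ∈ K}

/-- `e ∈ O` separates `y` from `T` in `O` (meaningful when `y → T` in `O`) -/
def Sep {W : Type*} (O : Set (Sym2 W)) (e : Sym2 W) (y : W) (T : Set W) : Prop :=
  e ∈ O ∧ ¬ RchT (del1 O e) y T

/-- the pairs `q j` are joined by pairwise edge-disjoint connections in `O`
(edge-disjoint sets `S j` of edges of `O`, `q j` connected inside `S j`) -/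
def DisjConn {W : Type*} {k : ℕ} (O : Set (Sym2 W)) (q : Fin k → W × W) : Prop :=
  ∃ S : Fin k → Set (Sym2 W), (∀ j, S j ⊆ O) ∧ Pairwise (Function.onFun Disjoint S) ∧
    ∀ j, Rch (S j) (q j).1 (q j).2

/-- (2.4) `E'(O; y, u; A)` -/
def EPrime {W : Type*} (O : Set (Sym2 W)) (y u : W) (A : Del W) : Prop :=
  Rch O y u ∧ u ∉ ClA A O y ∧
    ∀ e, Sep O e y {u} → ∀ u' ∈ e, Rch (del1 O e) y u' → u' ∈ ClA A O y

/-- `y ⇔ u`: connected and no separating edge -/
def DConn {W : Type*} (O : Set (Sym2 W)) (y u : W) : Prop :=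
  Rch O y u ∧ ∀ e, ¬ Sep O e y {u}

/-! ### The lattice -/

/-- vertices -/
abbrev V (d : ℕ) := Fin d → ℤ

/-- ℓ¹ norm -/
def l1 {d : ℕ} (x : V d) : ℤ := ∑ i, |x i|

/-- squared Euclidean norm -/
def n2 {d : ℕ} (x : V d) : ℕ := ∑ i, (x i).natAbs ^ 2

/-- the nearest neighbour graph of `ℤ^d` -/
def lat (d : ℕ) : SimpleGraph (V d) where
  Adj x y := l1 (y - x) = 1
  symm := ⟨by
    intro x y h
    rw [← h]
    unfold l1
    refine Finset.sum_congr rfl fun i _ => ?_
    rw [Pi.sub_apply, Pi.sub_apply, abs_sub_comm]⟩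
  loopless := ⟨by
    intro x h
    simp [l1] at h⟩

/-- the box `Λ_R(x)` -/
def bx {d : ℕ} (R : ℕ) (x : V d) : Set (V d) := {y | ∀ i, |y i - x i| ≤ R}

/-- the `2d` unit vectors -/
noncomputable def U1 (d : ℕ) : Finset (V d) :=
  (Finset.univ : Finset (Fin d × Bool)).image
    (fun q => if q.2 then Pi.single q.1 1 else - Pi.single q.1 1)

/-! ### Labels -/

/-- indices of labels: edges, and two ghost labels per vertex -/
abbrev Ix (d : ℕ) := Sym2 (V d) ⊕ (V d × Bool)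

/-- the probability space of labels -/
abbrev Om (d : ℕ) := Ix d → unitInterval

/-- the product measure -/
noncomputable def Pr (d : ℕ) : Measure (Om d) :=
  Measure.infinitePi (fun _ : Ix d => (volume : Measure unitInterval))

instance (d : ℕ) : IsProbabilityMeasure (Pr d) := by
  unfold Pr; infer_instance

/-- `O_p`: the `p`-open edges -/
def opn {d : ℕ} (p : ℝ) (ω : Om d) : Set (Sym2 (V d)) :=
  {e | e ∈ (lat d).edgeSet ∧ ((ω (Sum.inl e) : unitInterval) : ℝ) ≤ p}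

/-- `G_h` (b = false) and `G'_h` (b = true) -/
def ghost {d : ℕ} (b : Bool) (h : ℝ) (ω : Om d) : Set (V d) :=
  {v | ((ω (Sum.inr (v, b)) : unitInterval) : ℝ) ≤ 1 - Real.exp (-h)}

/-! ### Up-events and the disjoint occurrence (any index set) -/

/-- `ω_S`: `ω` on `S`, `1` off `S` -/
noncomputable def restr {ι : Type*} (S : Set ι) (ω : ι → unitInterval) : ι → unitInterval := by
  classical exact fun i => if i ∈ S then ω i else 1

/-- up-events: decreasing labels keeps the event -/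
def IsUp {ι : Type*} (A : Set (ι → unitInterval)) : Prop :=
  ∀ ω ω' : ι → unitInterval, (∀ i, ω' i ≤ ω i) → ω ∈ A → ω' ∈ A

/-- `A_1 ∘ ... ∘ A_k` -/
def dOcc {ι : Type*} {k : ℕ} (A : Fin k → Set (ι → unitInterval)) : Set (ι → unitInterval) :=
  {ω | ∃ S : Fin k → Finset ι, Pairwise (Function.onFun Disjoint S) ∧
    ∀ j, restr (S j : Set ι) ω ∈ A j}

/-! ### Functions on the lattice -/

variable {d : ℕ}

/-- convolution -/
noncomputable def conv (f g : V d → ℝ≥0∞) (x : V d) : ℝ≥0∞ := ∑' y, f y * g (x - y)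

/-- `δ_0` -/
noncomputable def dlt (x : V d) : ℝ≥0∞ := by
  classical exact if x = 0 then 1 else 0

/-- convolution powers `f^{*m}`, `f^{*0} = δ_0` -/
noncomputable def cpow (f : V d → ℝ≥0∞) : ℕ → V d → ℝ≥0∞
  | 0 => dlt
  | m + 1 => conv f (cpow f m)

/-- ℓ¹ norm of a nonnegative function -/
noncomputable def nrm (f : V d → ℝ≥0∞) : ℝ≥0∞ := ∑' x, f x

/-- sup norm of a nonnegative function -/
noncomputable def supn (f : V d → ℝ≥0∞) : ℝ≥0∞ := ⨆ x, f x

/-- `Σ_{a ∈ A} f a` -/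
noncomputable def sumA (A : Set (V d)) (f : V d → ℝ≥0∞) : ℝ≥0∞ := ∑' a : A, f a

/-- `J_p(x) = p 1{|x|_1 = 1}` -/
noncomputable def J (p : ℝ) (x : V d) : ℝ≥0∞ := by
  classical exact if l1 x = 1 then ENNReal.ofReal p else 0

/-- two-point function `τ_p(x) = P_p(0 ↔ x)` -/
noncomputable def tau (p : ℝ) (x : V d) : ℝ≥0∞ := Pr d {ω | Rch (opn p ω) 0 x}

/-- weighted two-point function `|x|² τ_p(x)` -/
noncomputable def tauw (p : ℝ) (x : V d) : ℝ≥0∞ := (n2 x : ℝ≥0∞) * tau p x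

/-- percolation probability -/
noncomputable def theta (d : ℕ) (p : ℝ) : ℝ≥0∞ := Pr d {ω | (Cl (opn p ω) 0).Infinite}

/-- the critical point -/
noncomputable def pc (d : ℕ) : ℝ := sSup {p : ℝ | theta d p = 0}

/-- susceptibility -/
noncomputable def chi (d : ℕ) (p : ℝ) : ℝ≥0∞ := ∑' x : V d, tau p x

/-- `M(p,h) = P_p(0 → G_h)` -/
noncomputable def Mg (d : ℕ) (p h : ℝ) : ℝ≥0∞ := Pr d {ω | RchT (opn p ω) 0 (ghost false h ω)}

/-- `s_m = sup_x (J * τ^{*m})(x)` -/
noncomputable def sm (d : ℕ) (p : ℝ) (m : ℕ) : ℝ≥0∞ := supn (conv (J p) (cpow (tau (d := d) p) m))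

/-- `B_m = τ^{*m}(0)` -/
noncomputable def Bm (d : ℕ) (p : ℝ) (m : ℕ) : ℝ≥0∞ := cpow (tau (d := d) p) m 0

/-- `B^w_{m+1} = (τ_w * τ^{*m})(0)` -/
noncomputable def Bw (d : ℕ) (p : ℝ) (m : ℕ) : ℝ≥0∞ :=
  conv (tauw (d := d) p) (cpow (tau (d := d) p) m) 0

/-! ### The lace kernel (Section 4.1)

State space: deletions `A` (finite vertex sets `K` after one step) and a vertex `y`.
`K = C(O \ e, y)`, `e = {u, v}`; the kernel jumps from `(A, y)` to `(K, v)`. -/

/-- `κ_p((A,y) → (K,v) via u) = J_p(v-u) · P(E'(O;y,u;A), C(O\e,y) = K)`, `e = {u,v}` -/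
noncomputable def ker (p : ℝ) (A : Del (V d)) (y : V d) (u v : V d) (K : Finset (V d)) : ℝ≥0∞ :=
  J p (v - u) *
    Pr d {ω | EPrime (opn p ω) y u A ∧ Cl (del1 (opn p ω) s(u, v)) y = (K : Set (V d))}

/-- `(ℰ F)(A, y) = Σ_{(u,v)} p E[1{E'(O;y,u;A)} F(C(O\e,y), v)]` (over finite clusters) -/
noncomputable def Ecal (p : ℝ) (F : Finset (V d) → V d → ℝ≥0∞) (A : Del (V d)) (y : V d) : ℝ≥0∞ :=
  ∑' u : V d, ∑' v : V d, ∑' K : Finset (V d), ker p A y u v K * F K v

/-- the kernel of the top step: `0 ⇔ u` instead of `E'` -/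
noncomputable def ker0 (p : ℝ) (u v : V d) (K : Finset (V d)) : ℝ≥0∞ :=
  J p (v - u) *
    Pr d {ω | DConn (opn p ω) 0 u ∧ Cl (del1 (opn p ω) s(u, v)) 0 = (K : Set (V d))}

/-- `ℰ_0 F` -/
noncomputable def Ecal0 (p : ℝ) (F : Finset (V d) → V d → ℝ≥0∞) : ℝ≥0∞ :=
  ∑' u : V d, ∑' v : V d, ∑' K : Finset (V d), ker0 p u v K * F K v

/-- `ℰ` acting on functions of (finite vertex set, vertex) -/
noncomputable def EcalF (p : ℝ) (F : Finset (V d) → V d → ℝ≥0∞) :
    Finset (V d) → V d → ℝ≥0∞ :=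
  fun A y => Ecal p F (Del.ofSet (A : Set (V d))) y

/-- the restricted kernel of Section 6.1: `E'(O\e;y,u;A)` and `v ∉ K` -/
noncomputable def kerR (p : ℝ) (A : Del (V d)) (y : V d) (u v : V d) (K : Finset (V d)) : ℝ≥0∞ :=
  J p (v - u) *
    Pr d {ω | EPrime (del1 (opn p ω) s(u, v)) y u A ∧
      Cl (del1 (opn p ω) s(u, v)) y = (K : Set (V d)) ∧ v ∉ K}

/-- `(E F)(A, y)` of Section 6.1 -/
noncomputable def ER (p : ℝ) (F : Finset (V d) → V d → ℝ≥0∞) (A : Del (V d)) (y : V d) : ℝ≥0∞ :=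
  ∑' u : V d, ∑' v : V d, ∑' K : Finset (V d), kerR p A y u v K * F K v

/-- `E` acting on functions of (finite vertex set, vertex) -/
noncomputable def ERF (p : ℝ) (F : Finset (V d) → V d → ℝ≥0∞) :
    Finset (V d) → V d → ℝ≥0∞ :=
  fun A y => ER p F (Del.ofSet (A : Set (V d))) y

/-- `Ξ_x(A, y) = P(E'(O; y, x; A))` -/
noncomputable def Xi (p : ℝ) (x : V d) (A : Del (V d)) (y : V d) : ℝ≥0∞ :=
  Pr d {ω | EPrime (opn p ω) y x A}

/-- `g_x(A, y) = P(y ↔ x, x ∉ C_A(O, y))` -/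
noncomputable def gx (p : ℝ) (x : V d) (A : Del (V d)) (y : V d) : ℝ≥0∞ :=
  Pr d {ω | Rch (opn p ω) y x ∧ x ∉ ClA A (opn p ω) y}

/-- the lace expansion coefficients `Π^N(x)` -/
noncomputable def PiN (p : ℝ) : ℕ → V d → ℝ≥0∞
  | 0 => fun x => Pr d {ω | DConn (opn p ω) 0 x}
  | N + 1 => fun x => Ecal0 p ((EcalF p)^[N] (fun A y => Xi p x (Del.ofSet (A : Set (V d))) y))

end Pool.Agent.PB
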