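import Pool.Agent.PB.Mix.Defs

/-!
# PROJECT PB: outputs of Sections 6 - 12 as structures (the interface between the architects)
Section n proves `OutN d` from `Crit d`, `Out5 d`, ..., `Out(N-1) d`.
-/

set_option autoImplicit false
open MeasureTheory Filter Topology
open scoped ENNReal BigOperators

namespace Pool.Agent.PB

variable {d : ℕ}

/-! ### Section 6 -/

/-- the functional `1 - e^{-sN}` -/
noncomputable def W1 (s : ℝ) (O : Set (Sym2 (V d))) (y : V d) : ℝ :=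
  1 - Real.exp (-(s * (Nc O y : ℝ)))

/-- `E[H(O) W_s^A(O,y)]` at `p_c` -/
noncomputable def EWH (H : Set (Sym2 (V d)) → ℝ) (W : ℝ → Set (Sym2 (V d)) → V d → ℝ) (s : ℝ)
    (A : Del (V d)) (y : V d) : ℝ := ∫ ω, H (Oc ω) * WA W s A (Oc ω) y ∂(Pr d)

/-- `H` depends only on the status of the edges in the finite set `B` -/
def LocalF (B : Set (Sym2 (V d))) (H : Set (Sym2 (V d)) → ℝ) : Prop :=
  B.Finite ∧ ∀ O O' : Set (Sym2 (V d)), O ∩ B = O' ∩ B → H O = H O'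

/-- the constant `c(H;A,y)` of local mixing -/
noncomputable def cloc (H : Set (Sym2 (V d)) → ℝ) (A : Del (V d)) (y : V d) : ℝ :=
  limUnder (𝓝[>] (0 : ℝ)) (fun s => EWH H W1 s A y / EW W1 s (D0 : Del (V d)) 0)

/-- OUTPUT of Section 6 -/
structure Out6 (d : ℕ) : Prop where
  psi_D0 : ∀ y : V d, psi (D0 : Del (V d)) y = 1
  psi_nonneg : ∀ (A : Del (V d)) (y : V d), A.Finite → y ∉ A.S → 0 ≤ psi A y
  psi_le : ∀ (A : Del (V d)) (y : V d), A.Finite → y ∉ A.S → psi A y ≤ 1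
  psi_anti : ∀ (K' K : Finset (V d)) (v : V d), K' ⊆ K → v ∉ K → psiK K v ≤ psiK K' v
  psi_lip : ∀ (K' K : Finset (V d)) (v : V d), K' ⊆ K → v ∉ K →
    psiK K' v - ∑ z ∈ K \ K', (tau (pc d) (z - v)).toReal ≤ psiK K v
  psi_shift : ∀ (K : Finset (V d)) (v z : V d), v ∉ K →
    psi (Del.ofSet ((fun x => x + z) '' (K : Set (V d)))) (v + z) = psiK K v
  /-- 6.3 MIXING -/
  mixing : ∀ (W : ℝ → Set (Sym2 (V d)) → V d → ℝ) (c : ℝ), IsLSF W c →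
    ∀ (A : Del (V d)) (y : V d), A.Finite → y ∉ A.S →
      Tendsto (fun s : ℝ => (EW W s A y - psi A y * EW W s D0 0) / Real.sqrt s)
        (𝓝[>] 0) (𝓝 0)
  /-- 6.4 LOCAL MIXING -/
  loc : ∀ (B : Set (Sym2 (V d))) (H : Set (Sym2 (V d)) → ℝ), LocalF B H →
    ∀ (W : ℝ → Set (Sym2 (V d)) → V d → ℝ) (c : ℝ), IsLSF W c →
    ∀ (A : Del (V d)) (y : V d), A.Finite → y ∉ A.S →
      Tendsto (fun s : ℝ => (EWH H W s A y - cloc H A y * EW W s D0 0) / Real.sqrt s)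
        (𝓝[>] 0) (𝓝 0)
  /-- the functionals of 6.0 are large scale functionals -/
  isLSF : ∀ (R : ℕ) (g : Set (V d) → ℝ) (w : ℝ → ℕ → ℝ → ℝ) (c0 c : ℝ), IsW w c0 c →
    (∀ L : Set (V d), L.Finite → (0 : V d) ∈ L → |g L| ≤ c0) → ∃ c', IsLSF (Wf R g w) c'
  /-- 6.5 -/
  W1_psi : ∀ (A : Del (V d)) (y : V d), A.Finite → y ∉ A.S →
    Tendsto (fun s : ℝ => EW W1 s A y / EW W1 s (D0 : Del (V d)) 0) (𝓝[>] 0) (𝓝 (psi A y))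

/-- `R_R(z)` of 6.6 -/
noncomputable def Rcal (R : ℕ) (z : V d) : ℝ≥0∞ := by
  classical exact ∑' x : V d, (if x ∉ bx R (0 : V d) then
    (conv (tau (pc d)) (tau (pc d)) x * tau (pc d) (z - x) +
      tau (pc d) x * conv (tau (pc d)) (tau (pc d)) (z - x)) else 0)

/-- `T_R(t)` of 6.6 -/
noncomputable def TR (R : ℕ) (t : V d → ℝ≥0∞) : ℝ≥0∞ := ∑' z : V d, t z * Rcal R z

/-! ### Section 7 -/

/-- OUTPUT of Section 7: `M(h) ~ sqrt(h/b)` -/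
structure Out7 (d : ℕ) (b : ℝ) : Prop where
  b_pos : 0 < b
  lim : Tendsto (fun h : ℝ => Mr d (pc d) h / Real.sqrt h) (𝓝[>] 0) (𝓝 (1 / Real.sqrt b))

/-! ### Section 8 -/

/-- the function `g(L) = Σ_{v ~ 0, v ∉ L} ψ(L, v)` -/
noncomputable def gL (L : Set (V d)) : ℝ := by
  classical exact ∑ v ∈ U1 d, if v ∉ L then psi (Del.ofSet L) v else 0

/-- `\bar g` for a local function `g(L_R(0))` -/
noncomputable def gbr (R : ℕ) (g : Set (V d) → ℝ) : ℝ :=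
  cloc (fun O => g (Lb0 R O (0 : V d))) (D0 : Del (V d)) 0

/-- `\bar g_R` -/
noncomputable def gbar (d : ℕ) (R : ℕ) : ℝ := gbr R (gL (d := d))

/-- `\bar g_∞ = lim_R \bar g_R` -/
noncomputable def ginf (d : ℕ) : ℝ := limUnder atTop (fun R : ℕ => gbar d R)

/-- `Y` for the function `gL` -/
noncomputable def YR (R : ℕ) (O : Set (Sym2 (V d))) (y : V d) : ℝ := Yf R gL O y

/-- OUTPUT of Section 8 -/
structure Out8 (d : ℕ) (b : ℝ) : Prop where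
  /-- 8.2 (first part) -/
  lln : ∀ (R : ℕ) (g : Set (V d) → ℝ) (c : ℝ),
    (∀ L : Set (V d), L.Finite → (0 : V d) ∈ L → |g L| ≤ c) →
    ∀ a b' η : ℝ, 0 < a → a < b' → 0 < η →
      Tendsto (fun s : ℝ => (Pr d {ω : Om d | a ≤ s * (Nc (Oc ω) (0 : V d) : ℝ) ∧
        s * (Nc (Oc ω) (0 : V d) : ℝ) ≤ b' ∧
        η * (Nc (Oc ω) (0 : V d) : ℝ) <
          |Yf R g (Oc ω) 0 - gbr R g * (Nc (Oc ω) (0 : V d) : ℝ)|}).toReal / Real.sqrt s)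
        (𝓝[>] 0) (𝓝 0)
  /-- 8.3: nonlocal pair sums, `t : V d → [0,∞]` -/
  nonloc : ∀ a b' : ℝ, 0 < a → a < b' → ∃ C : ℝ, 0 < C ∧ ∀ (R : ℕ) (t : V d → ℝ≥0∞) (η s : ℝ),
    0 < η → 0 < s → s ≤ 1 →
      Pr d {ω : Om d | a ≤ s * (Nc (Oc ω) (0 : V d) : ℝ) ∧ s * (Nc (Oc ω) (0 : V d) : ℝ) ≤ b' ∧
        ENNReal.ofReal (η * (Nc (Oc ω) (0 : V d) : ℝ)) <
          ∑' x : V d, ∑' z : V d, Set.indicator {q : V d × V d | q.1 ∈ Cl (Oc ω) (0 : V d) ∧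
            q.2 ∈ Cl (Oc ω) (0 : V d) ∧ q.2 ∉ Lb R (Oc ω) q.1} (fun q => t (q.2 - q.1)) (x, z)} ≤
      ENNReal.ofReal (C / η * Real.sqrt s) * TR R t
  /-- 8.3: pair sums -/
  pairs : ∀ a b' : ℝ, 0 < a → a < b' → ∃ C : ℝ, 0 < C ∧ ∀ (t : V d → ℝ≥0∞) (Λ s : ℝ),
    0 < Λ → 0 < s → s ≤ 1 →
      Pr d {ω : Om d | a ≤ s * (Nc (Oc ω) (0 : V d) : ℝ) ∧ s * (Nc (Oc ω) (0 : V d) : ℝ) ≤ b' ∧
        ENNReal.ofReal (Λ * (Nc (Oc ω) (0 : V d) : ℝ)) <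
          ∑' x : V d, ∑' z : V d, Set.indicator {q : V d × V d | q.1 ∈ Cl (Oc ω) (0 : V d) ∧
            q.2 ∈ Cl (Oc ω) (0 : V d)} (fun q => t (q.2 - q.1)) (x, z)} ≤
      ENNReal.ofReal (C / Λ * Real.sqrt s) *
        ∑' z : V d, t z * conv (tau (pc d)) (tau (pc d)) z
  /-- 8.4 finite energy -/
  finEn : ∀ (K : Finset (V d)) (y : V d), y ∉ K → ∃ C : ℝ, 0 < C ∧
    ∀ Ev : Set (Sym2 (V d)) → Prop,
      (∀ O O' : Set (Sym2 (V d)), (Cl O y).Finite →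
        (∀ e ∈ touch (Cl O y), (e ∈ O ↔ e ∈ O')) → (Ev O ↔ Ev O')) →
      Pr d {ω : Om d | (Cl (Oc ω) y).Finite ∧ Ev ((Del.ofSet (K : Set (V d))).rem (Oc ω))} ≤
        ENNReal.ofReal C * Pr d {ω : Om d | (Cl (Oc ω) y).Finite ∧ Ev (Oc ω)}
  /-- 8.5 -/
  gbar_nonneg : ∀ R, 0 ≤ gbar d R
  gbar_anti : Antitone (gbar d)
  gbar_lim : Tendsto (gbar d) atTop (𝓝 (ginf d))
  /-- 8.6: limits of the exponential functionals -/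
  explim : ∀ (R : ℕ) (a t η : ℝ) (as : ℝ → ℝ), 0 < a → 0 ≤ t →
    Tendsto (fun s => as s / s) (𝓝[>] 0) (𝓝 a) → (∀ s, 0 ≤ as s) →
      Tendsto (fun s : ℝ => EW (Wf R gL (fun s N Y =>
        1 - Real.exp (-(as s * max 0 (t * Y + η * N))))) s (D0 : Del (V d)) 0 / Real.sqrt s)
        (𝓝[>] 0) (𝓝 (Real.sqrt (a * max 0 (t * gbar d R + η) / b)))
  /-- and they satisfy (W) -/
  expW : ∀ (a t η c0 : ℝ) (as : ℝ → ℝ), 0 ≤ a → 0 ≤ t → 0 ≤ c0 → (∀ s, 0 ≤ as s) →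
    (∀ s, 0 < s → s ≤ 1 → as s ≤ a * s) → ∃ c, IsW (fun s N Y =>
        1 - Real.exp (-(as s * max 0 (t * Y + η * N)))) c0 c
  /-- `0 ≤ gL ≤ 2d` on finite sets -/
  gL_bd : ∀ L : Set (V d), L.Finite → (0 : V d) ∈ L → 0 ≤ gL L ∧ gL L ≤ 2 * d

/-- `λ = \bar g_∞ / ((1-p_c) b)` -/
noncomputable def lam (d : ℕ) (b : ℝ) : ℝ := ginf d / ((1 - pc d) * b)

/-! ### Section 9 -/

/-- `P_p(y → ∞ off A)` -/
noncomputable def thA (p : ℝ) (A : Del (V d)) (y : V d) : ℝ≥0∞ :=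
  Pr d {ω : Om d | (ClA A (opn p ω) y).Infinite}

/-- OUTPUT of Section 9 -/
structure Out9 (d : ℕ) (b : ℝ) : Prop where
  /-- 9.2 -/
  M_le : ∃ C : ℝ, 1 ≤ C ∧ ∀ p h : ℝ, pc d ≤ p → p ≤ 1 → 0 < h → h ≤ 1 →
    Mr d p h ≤ C * (Real.sqrt h + (p - pc d))
  th_le : ∃ C : ℝ, 1 ≤ C ∧ ∀ p : ℝ, pc d ≤ p → p ≤ 1 → thr d p ≤ C * (p - pc d)
  tail_le : ∃ C : ℝ, 1 ≤ C ∧ ∀ (p : ℝ) (n : ℕ), pc d ≤ p → p ≤ 1 → 1 ≤ n →
    (Pr d {ω : Om d | (n : ℕ∞) ≤ (Cl (opn p ω) (0 : V d)).encard}).toReal ≤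
      C * (1 / Real.sqrt n + (p - pc d))
  /-- 9.3 upper bound -/
  lam_pos : 0 < lam d b
  limsup_le : ∀ δ : ℝ, 0 < δ → ∀ᶠ ε in 𝓝[>] (0 : ℝ), thr d (pc d + ε) ≤ (lam d b + δ) * ε

/-! ### Section 10 -/

/-- `rad_F(y) ≥ r` in `O` : some `z` has `d_{O ∩ F}(y,z) = r` -/
def radGe {W : Type*} (O : Set (Sym2 W)) (r : ℕ) (y : W) : Prop := (Sph O r y).Nonempty

/-- `Γ_p(r) = sup_F P_p(rad_F(y) ≥ r)` -/
noncomputable def Gam (d : ℕ) (p : ℝ) (r : ℕ) : ℝ≥0∞ :=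
  ⨆ (F : Set (Sym2 (V d))) (y : V d), Pr d {ω : Om d | radGe (opn p ω ∩ F) r y}

/-- `κ_{p,r}(x) = P_p(0 ↔ x by a path of length ≤ r)` -/
noncomputable def kap (p : ℝ) (r : ℕ) (x : V d) : ℝ≥0∞ := Pr d {ω : Om d | RchL (opn p ω) r 0 x}

/-- OUTPUT of Section 10 -/
structure Out10 (d : ℕ) : Prop where
  one_arm : ∃ C : ℝ, 1 ≤ C ∧ ∀ r : ℕ, 1 ≤ r → Gam d (pc d) r ≤ ENNReal.ofReal (C / r)
  keepG : ∀ (p : ℝ) (r : ℕ), pc d ≤ p → p ≤ 1 →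
    Gam d p r ≤ ENNReal.ofReal ((p / pc d) ^ r) * Gam d (pc d) r
  keepK : ∀ (p : ℝ) (r : ℕ) (x : V d), pc d ≤ p → p ≤ 1 →
    kap p r x ≤ ENNReal.ofReal ((p / pc d) ^ r) * kap (pc d) r x
  ball : ∃ C : ℝ, 1 ≤ C ∧ ∀ r : ℕ, ∑' x : V d, kap (pc d) r x ≤ ENNReal.ofReal (C * (r + 1))

/-! ### Section 11 -/

/-- `X_r^A(y)` with threshold `n`: `y` is joined off `A` by at most `r` `p`-open edges to some `z`
whose `p_c`-cluster off `A` has at least `n` vertices -/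
def XEv (p : ℝ) (n : ℝ) (r : ℕ) (A : Del (V d)) (y : V d) : Set (Om d) :=
  {ω | y ∉ A.S ∧ ∃ z, RchL (A.rem (opn p ω)) r y z ∧
    ((Cl (A.rem (Oc ω)) z).Infinite ∨ n ≤ ((Cl (A.rem (Oc ω)) z).ncard : ℝ))}

/-- OUTPUT of Section 11 (`n = k ε^{-2}`, `r = ⌊K/ε⌋`) -/
structure Out11 (d : ℕ) (b : ℝ) : Prop where
  low : ∀ k : ℝ, 0 < k → ∀ δ : ℝ, 0 < δ → ∃ K : ℝ, 0 < K ∧ ∀ᶠ ε in 𝓝[>] (0 : ℝ),
    (lam d b - δ) * ε ≤
      (Pr d (XEv (pc d + ε) (k / ε ^ 2) ⌊K / ε⌋₊ (D0 : Del (V d)) (0 : V d))).toReal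

/-! ### Section 12 -/

/-- OUTPUT of Section 12 -/
structure Out12 (d : ℕ) (b : ℝ) : Prop where
  liminf_ge : ∀ δ : ℝ, 0 < δ → ∀ᶠ ε in 𝓝[>] (0 : ℝ), (lam d b - δ) * ε ≤ thr d (pc d + ε)

/-- the final limit -/
theorem final_lim {b : ℝ} (h9 : Out9 d b) (h12 : Out12 d b) :
    ∃ C : ℝ, 0 < C ∧ Tendsto (fun ε : ℝ => thr d (pc d + ε) / ε) (𝓝[>] 0) (𝓝 C) := by
  refine ⟨lam d b, h9.lam_pos, ?_⟩
  rw [Metric.tendsto_nhds]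
  intro δ hδ
  filter_upwards [h9.limsup_le (δ / 2) (half_pos hδ), h12.liminf_ge (δ / 2) (half_pos hδ),
    self_mem_nhdsWithin] with ε h1 h2 hε
  have hε' : (0 : ℝ) < ε := hε
  rw [Real.dist_eq, abs_lt]
  constructor
  · have : lam d b - δ / 2 ≤ thr d (pc d + ε) / ε := by
      rw [le_div_iff₀ hε']; exact h2
    linarith
  · have : thr d (pc d + ε) / ε ≤ lam d b + δ / 2 := by
      rw [div_le_iff₀ hε']; exact h1
    linarith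

end Pool.Agent.PB
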