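import Pool.Agent.PB.C.Main
import Pool.Agent.PB.S5.Final
import Pool.Agent.PB.Mix.PsiP
import Pool.Agent.PB.S7.Main
import Pool.Agent.PB.S8.Final
import Pool.Agent.PB.Spr.Out9
import Pool.Agent.PB.T.Main
import Pool.Agent.PB.Low.Main
import Pool.Agent.PB.AB.Main
import Pool.Agent.PB.M12.Main
import Pool.Agent.PB.L.Final
import Pool.Agent.PB.Link

/-!
# PROJECT PB: the final theorem (S19313)
-/

set_option autoImplicit false
open MeasureTheory Filter Topology
open scoped ENNReal BigOperators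

namespace Pool.Agent.PB

theorem theta_limit : ∃ d₀ : ℕ, ∀ d : ℕ, d₀ ≤ d → ∃ C : ℝ, 0 < C ∧
    Tendsto (fun ε : ℝ => (theta d (pc d + ε)).toReal / ε) (𝓝[>] 0) (𝓝 C) := by
  obtain ⟨d0, h⟩ := S3.crit_of
  refine ⟨d0, fun d hd => ?_⟩
  have hC : Crit d := h d hd
  have h5 : Out5 d := S5.out5 hC
  have h6 : Out6 d := out6 hC h5
  obtain ⟨b, h7⟩ := S7.out7 hC h5 h6
  have h8 : Out8 d b := S8.out8 hC h5 h6 h7
  have h9 : Out9 d b := out9 hC h5 h6 h7 h8
  have h10 : Out10 d := T10.out10 hC h5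
  have h11 : Out11 d b := Low.out11 hC h5 h6 h7.b_pos h8 h9 h10
  have hI : In12 d := M12.in12 hC h9 h10 (AB.in12_3 hC h9)
  have h12 : Out12 d b := L12.out12 hC h5 h6 h7 h8 h9 h10 h11 hI
  exact final_lim h9 h12

end Pool.Agent.PB
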